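import Mathlib

/-! Linear algebra of primary parts. -/

open Polynomial

namespace Pool.Agent.MP_bc14e1_gt

section Aux

variable {V : Type} [AddCommGroup V] [Module ℂ V]

theorem Abs_stable (S : Module.End ℂ V) {Z : Submodule ℂ V} (hZ : ∀ v ∈ Z, S v ∈ Z) (p : ℂ[X])
    {v : V} (hv : v ∈ Z) : aeval S p v ∈ Z :=
  Polynomial.aeval_apply_smul_mem_of_le_comap hv p S (fun w hw => hZ w hw)

theorem Abs_mul (S : Module.End ℂ V) (p q : ℂ[X]) (v : V) :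
    aeval S (p * q) v = aeval S p (aeval S q v) := by
  rw [map_mul, Module.End.mul_apply]

theorem Abs_lin (S : Module.End ℂ V) (s : ℂ) (v : V) : aeval S (X - C s) v = S v - s • v := by
  rw [map_sub, aeval_X, aeval_C, LinearMap.sub_apply, Module.algebraMap_end_apply]

theorem Abs_eval (S : Module.End ℂ V) {W : Submodule ℂ V} (hW : ∀ v ∈ W, S v ∈ W) {s : ℂ}
    (p : ℂ[X]) {v : V} (hv : S v - s • v ∈ W) : aeval S p v - p.eval s • v ∈ W := by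
  obtain ⟨q, hq⟩ := X_sub_C_dvd_sub_C_eval (p := p) (a := s)
  have h : aeval S p v - p.eval s • v = aeval S q (S v - s • v) := by
    rw [← Abs_lin S s v, ← Abs_mul, mul_comm, ← hq, map_sub, aeval_C, LinearMap.sub_apply,
      Module.algebraMap_end_apply]
  rw [h]
  exact Abs_stable S hW q hv

theorem Abs_phi (S : Module.End ℂ V) {s : ℂ} (φ : V →ₗ[ℂ] ℂ) (hφ : ∀ v, φ (S v) = s * φ v)
    (p : ℂ[X]) (v : V) : φ (aeval S p v) = p.eval s * φ v := by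
  have h := Abs_eval S (W := LinearMap.ker φ) (s := s) (fun w hw => by
    rw [LinearMap.mem_ker] at hw ⊢
    rw [hφ, hw, mul_zero]) p (v := v) (by
    rw [LinearMap.mem_ker, map_sub, map_smul, hφ, smul_eq_mul, sub_self])
  rwa [LinearMap.mem_ker, map_sub, map_smul, smul_eq_mul, sub_eq_zero] at h

theorem Abs_pi (S : Module.End ℂ V) (s : ℂ) (N : ℕ) :
    aeval S (X ^ N - C (s ^ N)) = S ^ N - s ^ N • (1 : Module.End ℂ V) := by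
  rw [map_sub, map_pow, aeval_X, aeval_C, Algebra.algebraMap_eq_smul_one]

theorem Abs_coprime {s : ℂ} (h0 : s ≠ 0) {N : ℕ} {D : ℂ[X]}
    (hD : ∀ η : ℂ, η ^ N = 1 → D.eval (η * s) ≠ 0) : IsCoprime (X ^ N - C (s ^ N)) D := by
  rw [Polynomial.isCoprime_iff_aeval_ne_zero_of_isAlgClosed ℂ ℂ]
  intro a
  by_cases h : a ^ N = s ^ N
  · right
    have h1 := hD (a / s) (by rw [div_pow, h, div_self (pow_ne_zero _ h0)])
    rwa [div_mul_cancel₀ _ h0, ← coe_aeval_eq_eval] at h1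
  · left
    rw [map_sub, map_pow, aeval_X, aeval_C]
    exact sub_ne_zero.2 h

theorem Abs_co (S : Module.End ℂ V) {Z W : Submodule ℂ V} (hco : ∀ v, S v - v ∈ Z ⊔ W) (v : V) :
    ∃ x ∈ Z, S v - v - x ∈ W := by
  obtain ⟨x, hx, w, hw, h⟩ := Submodule.mem_sup.1 (hco v)
  exact ⟨x, hx, by rwa [← h, add_sub_cancel_left]⟩

end Aux

theorem abs_len1 {V : Type} [AddCommGroup V] [Module ℂ V] (S : Module.End ℂ V)
    (Z B W : Submodule ℂ V) (hZ : ∀ v ∈ Z, S v ∈ Z) (hB : ∀ v ∈ B, S v ∈ B)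
    (hW : ∀ v ∈ W, S v ∈ W) (hBW : B ≤ W) (hZW : Z ⊓ W ≤ B) (hco : ∀ v, S v - v ∈ Z ⊔ W)
    {s₀ : ℂ} (hs : s₀ ≠ 1) (h0 : s₀ ≠ 0) {N : ℕ} (hN : 0 < N) {D : ℂ[X]}
    (hD : ∀ η : ℂ, η ^ N = 1 → D.eval (η * s₀) ≠ 0)
    (hkill : ∀ v, aeval S ((X - C s₀) * D) v ∈ W) (g : V)
    (hrank : ∀ v, ∃ (t : ℂ) (u : V), v - t • g - (S u - s₀ • u) ∈ W)
    (φ : V →ₗ[ℂ] ℂ) (hφW : ∀ v ∈ W, φ v = 0) (hφS : ∀ v, φ (S v) = s₀ * φ v) (hφ : φ ≠ 0) :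
    ∃ x ∈ Z, (S ^ N - s₀ ^ N • (1 : Module.End ℂ V)) x ∈ B ∧ x ∉ B ∧
      (∀ y ∈ Z, ∀ k : ℕ, ((S ^ N - s₀ ^ N • (1 : Module.End ℂ V)) ^ k) y ∈ B →
        ∃ μ : ℂ, y - μ • x ∈ B) ∧
      ∀ y ∈ Z, ∃ μ : ℂ, ∃ y' ∈ Z,
        y - μ • x - (S ^ N - s₀ ^ N • (1 : Module.End ℂ V)) y' ∈ B := by
  have hg : φ g ≠ 0 := fun hg => hφ (LinearMap.ext fun v => by
    obtain ⟨t, u, h⟩ := hrank v
    have h1 := hφW _ h
    rw [map_sub, map_sub, map_sub, map_smul, map_smul, hφS, hg, smul_zero, smul_eq_mul,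
      sub_self, sub_zero, sub_zero] at h1
    exact h1)
  have hD1 : D.eval s₀ ≠ 0 := by simpa using hD 1 (one_pow _)
  have hs1 : s₀ - 1 ≠ 0 := sub_ne_zero.2 hs
  have hx0 : S (aeval S D g) - s₀ • aeval S D g ∈ W := by
    rw [← Abs_lin, ← Abs_mul]
    exact hkill g
  have hφ0 : φ (aeval S D g) ≠ 0 := by
    rw [Abs_phi S φ hφS]
    exact mul_ne_zero hD1 hg
  have hDy : ∀ y, ∃ t : ℂ, aeval S D y - t • aeval S D g ∈ W := fun y => by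
    obtain ⟨t, u, h⟩ := hrank y
    have h1 := Abs_stable S hW D h
    have h2 : aeval S D (S u - s₀ • u) ∈ W := by
      rw [← Abs_lin, ← Abs_mul, mul_comm]
      exact hkill u
    rw [map_sub, map_sub, map_smul] at h1
    exact ⟨t, by simpa using W.add_mem h1 h2⟩
  generalize aeval S D g = x0 at hx0 hφ0 hDy
  obtain ⟨x, hx, hxW⟩ := Abs_co S hco x0
  have h1 : x - (s₀ - 1) • x0 ∈ W := by
    have e : x - (s₀ - 1) • x0 = (S x0 - s₀ • x0) - (S x0 - x0 - x) := by module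
    rw [e]
    exact W.sub_mem hx0 hxW
  have h2 : S x - s₀ • x ∈ W := by
    have e : S x - s₀ • x = (s₀ - 1) • (S x0 - s₀ • x0) +
        (S (x - (s₀ - 1) • x0) - s₀ • (x - (s₀ - 1) • x0)) := by
      rw [map_sub, map_smul]
      module
    rw [e]
    exact W.add_mem (W.smul_mem _ hx0) (W.sub_mem (hW _ h1) (W.smul_mem _ h1))
  have h3 : ∀ (v : ℂ[X]) (y : V), ∃ μ : ℂ, aeval S (v * D) y - μ • x ∈ W := fun v y => by
    obtain ⟨t, ht⟩ := hDy y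
    have a1 : aeval S D y - (t * (s₀ - 1)⁻¹) • x ∈ W := by
      have e : aeval S D y - (t * (s₀ - 1)⁻¹) • x =
          (aeval S D y - t • x0) - (t * (s₀ - 1)⁻¹) • (x - (s₀ - 1) • x0) := by
        rw [smul_sub, smul_smul, inv_mul_cancel_right₀ hs1]
        module
      rw [e]
      exact W.sub_mem ht (W.smul_mem _ h1)
    have a2 := Abs_stable S hW v a1
    have a3 := W.smul_mem (t * (s₀ - 1)⁻¹) (Abs_eval S hW v h2)
    refine ⟨t * (s₀ - 1)⁻¹ * v.eval s₀, ?_⟩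
    have a4 := W.add_mem a2 a3
    rw [map_sub, map_smul, smul_sub, smul_smul, sub_add_sub_cancel] at a4
    rwa [Abs_mul]
  have hcop := Abs_coprime h0 hD
  rw [← Abs_pi]
  refine ⟨x, hx, hZW ⟨Abs_stable S hZ _ hx, ?_⟩, fun hxB => ?_, fun y hy k hk => ?_,
    fun y hy => ?_⟩
  · have a1 := Abs_eval S hW (X ^ N - C (s₀ ^ N)) h2
    rwa [eval_sub, eval_pow, eval_X, eval_C, sub_self, zero_smul, sub_zero] at a1
  · have a1 := hφW _ h1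
    rw [map_sub, map_smul, hφW _ (hBW hxB), smul_eq_mul, zero_sub, neg_eq_zero] at a1
    exact mul_ne_zero hs1 hφ0 a1
  · obtain ⟨u, v, huv⟩ := hcop.pow_left (m := k)
    obtain ⟨μ, hμ⟩ := h3 v y
    refine ⟨μ, hZW ⟨Z.sub_mem hy (Z.smul_mem _ hx), ?_⟩⟩
    rw [← map_pow] at hk
    have a1 := hBW (Abs_stable S hB u hk)
    have a2 := W.add_mem a1 hμ
    rwa [← Abs_mul, ← add_sub_assoc, ← LinearMap.add_apply, ← map_add, huv, map_one,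
      Module.End.one_apply] at a2
  · obtain ⟨u, v, huv⟩ := hcop
    obtain ⟨μ, hμ⟩ := h3 v y
    have a0 := Abs_stable S hZ u hy
    refine ⟨μ, aeval S u y, a0, hZW ⟨Z.sub_mem (Z.sub_mem hy (Z.smul_mem _ hx))
      (Abs_stable S hZ _ a0), ?_⟩⟩
    have a1 : y = aeval S (X ^ N - C (s₀ ^ N)) (aeval S u y) + aeval S (v * D) y := by
      rw [← Abs_mul, ← LinearMap.add_apply, ← map_add, mul_comm, huv, map_one,
        Module.End.one_apply]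
    have e : y - μ • x - aeval S (X ^ N - C (s₀ ^ N)) (aeval S u y) =
        aeval S (v * D) y - μ • x := by
      rw [sub_right_comm, sub_left_inj, sub_eq_iff_eq_add']
      exact a1
    rw [SetLike.mem_coe, e]
    exact hμ

theorem abs_len2 {V : Type} [AddCommGroup V] [Module ℂ V] (S : Module.End ℂ V)
    (Z B W : Submodule ℂ V) (hZ : ∀ v ∈ Z, S v ∈ Z)
    (hW : ∀ v ∈ W, S v ∈ W) (hZW : Z ⊓ W ≤ B) (hco : ∀ v, S v - v ∈ Z ⊔ W)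
    {ζ : ℂ} (hs : ζ ≠ 1) {D : ℂ[X]} (hkill : ∀ v, aeval S ((X - C ζ) * D) v ∈ W) (g₁ g₂ : V)
    (hrank : ∀ v, ∃ (t₁ t₂ : ℂ) (u : V), v - t₁ • g₁ - t₂ • g₂ - (S u - ζ • u) ∈ W) :
    (∀ y ∈ Z, (S - ζ • (1 : Module.End ℂ V)) (aeval S D y) ∈ B) ∧
    ∃ x₁ ∈ Z, ∃ x₂ ∈ Z, ∀ y ∈ Z, ∃ μ₁ μ₂ : ℂ, ∃ y' ∈ Z,
      y - μ₁ • x₁ - μ₂ • x₂ - (S - ζ • (1 : Module.End ℂ V)) y' ∈ B := by
  have hπ : ∀ v, (S - ζ • (1 : Module.End ℂ V)) v = S v - ζ • v := fun v => rfl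
  have hπZ : ∀ v ∈ Z, S v - ζ • v ∈ Z := fun v hv => Z.sub_mem (hZ v hv) (Z.smul_mem _ hv)
  have hs1 : ζ - 1 ≠ 0 := sub_ne_zero.2 hs
  refine ⟨fun y hy => ?_, ?_⟩
  · rw [hπ]
    refine hZW ⟨hπZ _ (Abs_stable S hZ D hy), ?_⟩
    rw [SetLike.mem_coe, ← Abs_lin, ← Abs_mul]
    exact hkill y
  obtain ⟨x₁, hx₁, a1⟩ := Abs_co S hco g₁
  obtain ⟨x₂, hx₂, a2⟩ := Abs_co S hco g₂
  refine ⟨x₁, hx₁, x₂, hx₂, fun y hy => ?_⟩
  obtain ⟨t₁, t₂, u, h⟩ := hrank y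
  obtain ⟨u', hu', a3⟩ := Abs_co S hco u
  have hy' : (ζ - 1)⁻¹ • (u' - y) ∈ Z := Z.smul_mem _ (Z.sub_mem hu' hy)
  refine ⟨(ζ - 1)⁻¹ * t₁, (ζ - 1)⁻¹ * t₂, (ζ - 1)⁻¹ • (u' - y), hy', ?_⟩
  rw [hπ]
  refine hZW ⟨Z.sub_mem (Z.sub_mem (Z.sub_mem hy (Z.smul_mem _ hx₁)) (Z.smul_mem _ hx₂))
    (hπZ _ hy'), ?_⟩
  have b : (ζ - 1) • y - t₁ • x₁ - t₂ • x₂ - (S (u' - y) - ζ • (u' - y)) ∈ W := by
    have b1 := W.add_mem (W.add_mem (W.add_mem (W.sub_mem (hW _ h) h) (W.smul_mem t₁ a1))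
      (W.smul_mem t₂ a2)) (W.sub_mem (hW _ a3) (W.smul_mem ζ a3))
    convert b1 using 1
    simp only [map_sub, map_smul]
    module
  have b2 := W.smul_mem (ζ - 1)⁻¹ b
  rw [smul_sub, smul_sub, smul_sub, inv_smul_smul₀ hs1] at b2
  rw [SetLike.mem_coe, map_smul]
  convert b2 using 1
  module

end Pool.Agent.MP_bc14e1_gt
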