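import Pool.Agent.MP_bc14e1_gt.Kn.Tw
import Pool.Agent.MP_bc14e1_gt.K.C00
import Pool.Agent.MP_bc14e1_gt.K.C01
import Pool.Agent.MP_bc14e1_gt.K.C02
import Pool.Agent.MP_bc14e1_gt.K.C03
import Pool.Agent.MP_bc14e1_gt.K.C04
import Pool.Agent.MP_bc14e1_gt.K.C05
import Pool.Agent.MP_bc14e1_gt.K.C06
import Pool.Agent.MP_bc14e1_gt.K.C07
import Pool.Agent.MP_bc14e1_gt.K.C08
import Pool.Agent.MP_bc14e1_gt.K.C09
import Pool.Agent.MP_bc14e1_gt.K.C10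
import Pool.Agent.MP_bc14e1_gt.K.C11

/-! The twisted homology on all invariant lines. -/

namespace Pool.Agent.MP_bc14e1_gt

/-- The inverse of `1 + 2 ω` modulo eight. -/
def uA : (Eis (ZMod 8))ˣ := ⟨⟨5, 2⟩, ⟨1, 2⟩, by decide +kernel, by decide +kernel⟩

/-- The inverse of `1 + 3 ω` modulo eight. -/
def uB : (Eis (ZMod 8))ˣ := ⟨⟨4, 1⟩, ⟨1, 3⟩, by decide +kernel, by decide +kernel⟩

theorem twOK_of_unit (u : (Eis (ZMod 8))ˣ) {x y : Eis (ZMod 8)}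
    (h : ∃ χ, TwOK regK gapK χ (col8 (u.inv * x) (u.inv * y))) :
    ∃ χ, TwOK regK gapK χ (col8 x y) := by
  have := twOK_unit u _ _ h
  rwa [← mul_assoc, ← mul_assoc, show (u : Eis (ZMod 8)) * u.inv = 1 from u.val_inv, one_mul,
    one_mul] at this

theorem line00 : ∃ χ, TwOK regK gapK χ (col8 ⟨2 * 1, -1⟩ ⟨0, 0⟩) :=
  twOK_of_unit uB (twOK_of_cert ce00 ex00 am00 _ tab00 chk₁_00 chk₂_00 chk₃_00 chk₄_00 _ _
    (by decide +kernel))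

theorem line01 : ∃ χ, TwOK regK gapK χ (col8 ⟨2 * 1, -1⟩ ⟨1, 0⟩) :=
  twOK_of_unit uB (twOK_of_cert ce01 ex01 am01 _ tab01 chk₁_01 chk₂_01 chk₃_01 chk₄_01 _ _
    (by decide +kernel))

theorem line02 : ∃ χ, TwOK regK gapK χ (col8 ⟨2 * 1, -1⟩ ⟨2, 0⟩) :=
  twOK_of_unit uA (twOK_of_cert ce02 ex02 am02 _ tab02 chk₁_02 chk₂_02 chk₃_02 chk₄_02 _ _
    (by decide +kernel))

theorem line03 : ∃ χ, TwOK regK gapK χ (col8 ⟨2 * 1, -1⟩ ⟨3, 0⟩) :=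
  twOK_of_unit uB (twOK_of_cert ce03 ex03 am03 _ tab03 chk₁_03 chk₂_03 chk₃_03 chk₄_03 _ _
    (by decide +kernel))

theorem line04 : ∃ χ, TwOK regK gapK χ (col8 ⟨2 * 1, -1⟩ ⟨4, 0⟩) :=
  twOK_of_unit uA (twOK_of_cert ce04 ex04 am04 _ tab04 chk₁_04 chk₂_04 chk₃_04 chk₄_04 _ _
    (by decide +kernel))

theorem line05 : ∃ χ, TwOK regK gapK χ (col8 ⟨2 * 1, -1⟩ ⟨5, 0⟩) :=
  twOK_of_unit uA (twOK_of_cert ce05 ex05 am05 _ tab05 chk₁_05 chk₂_05 chk₃_05 chk₄_05 _ _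
    (by decide +kernel))

theorem line06 : ∃ χ, TwOK regK gapK χ (col8 ⟨2 * 1, -1⟩ ⟨6, 0⟩) :=
  twOK_of_unit uB (twOK_of_cert ce06 ex06 am06 _ tab06 chk₁_06 chk₂_06 chk₃_06 chk₄_06 _ _
    (by decide +kernel))

theorem line07 : ∃ χ, TwOK regK gapK χ (col8 ⟨2 * 1, -1⟩ ⟨7, 0⟩) :=
  twOK_of_unit uB (twOK_of_cert ce07 ex07 am07 _ tab07 chk₁_07 chk₂_07 chk₃_07 chk₄_07 _ _
    (by decide +kernel))

theorem line08 : ∃ χ, TwOK regK gapK χ (col8 ⟨2 * 0, -0⟩ ⟨1, 0⟩) :=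
  twOK_of_unit uA (twOK_of_cert ce08 ex08 am08 _ tab08 chk₁_08 chk₂_08 chk₃_08 chk₄_08 _ _
    (by decide +kernel))

theorem line09 : ∃ χ, TwOK regK gapK χ (col8 ⟨2 * 2, -2⟩ ⟨1, 0⟩) :=
  twOK_of_unit uB (twOK_of_cert ce09 ex09 am09 _ tab09 chk₁_09 chk₂_09 chk₃_09 chk₄_09 _ _
    (by decide +kernel))

theorem line10 : ∃ χ, TwOK regK gapK χ (col8 ⟨2 * 4, -4⟩ ⟨1, 0⟩) :=
  twOK_of_unit uA (twOK_of_cert ce10 ex10 am10 _ tab10 chk₁_10 chk₂_10 chk₃_10 chk₄_10 _ _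
    (by decide +kernel))

theorem line11 : ∃ χ, TwOK regK gapK χ (col8 ⟨2 * 6, -6⟩ ⟨1, 0⟩) :=
  twOK_of_unit uA (twOK_of_cert ce11 ex11 am11 _ tab11 chk₁_11 chk₂_11 chk₃_11 chk₄_11 _ _
    (by decide +kernel))

theorem tw_all (a b : Eis (ZMod 8)) (hu : IsUnit a ∨ IsUnit b)
    (hJ : JComp gapK iotR (col8 a b)) : ∃ χ, TwOK regK gapK χ (col8 a b) := by
  obtain ⟨u, m, n, h, rfl, rfl⟩ := jcomp_lines a b hu hJ
  refine twOK_unit u _ _ ?_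
  rcases h with rfl | ⟨rfl, rfl | rfl | rfl | rfl⟩
  · have : ∀ n : ZMod 8, n = 0 ∨ n = 1 ∨ n = 2 ∨ n = 3 ∨ n = 4 ∨ n = 5 ∨ n = 6 ∨ n = 7 := by
      decide
    rcases this n with rfl | rfl | rfl | rfl | rfl | rfl | rfl | rfl
    exacts [line00, line01, line02, line03, line04, line05, line06, line07]
  exacts [line08, line09, line10, line11]

end Pool.Agent.MP_bc14e1_gt
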