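import Pool.Agent.MP_bc14e1_gt.Kn.Def

/-! Cones over subsets of the sphere. -/

open Set Metric

namespace Pool.Agent.MP_bc14e1_gt

theorem Cone_pos {x : E 4} (hx : x ∈ shell) : 0 < ‖x‖ := lt_trans (by norm_num) hx.1

/-- The radial projection of the shell. -/
noncomputable def Cone_nrm (x : E 4) (hx : x ∈ shell) : S3 :=
  ⟨‖x‖⁻¹ • x, by
    rw [mem_sphere_zero_iff_norm, norm_smul, norm_inv, norm_norm,
      inv_mul_cancel₀ (Cone_pos hx).ne']⟩

theorem Cone_mem {A : Set S3} {x : E 4} (hx : x ∈ shell) : x ∈ shC A ↔ Cone_nrm x hx ∈ A :=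
  ⟨fun ⟨_, v, hv, e⟩ => (Subtype.ext e : v = Cone_nrm x hx) ▸ hv, fun h => ⟨hx, _, h, rfl⟩⟩

theorem Cone_smul {A : Set S3} {v : S3} (hv : v ∈ A) {r : ℝ} (h1 : 1 / 2 < r) (h2 : r < 1) :
    r • (v : E 4) ∈ shC A := by
  have h0 : 0 < r := lt_trans (by norm_num) h1
  have hn : ‖r • (v : E 4)‖ = r := by
    rw [norm_smul, mem_sphere_zero_iff_norm.1 v.2, mul_one, Real.norm_of_nonneg h0.le]
  refine ⟨⟨by rwa [hn], by rwa [hn]⟩, v, hv, ?_⟩
  rw [hn, smul_smul, inv_mul_cancel₀ h0.ne', one_smul]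

theorem shC_mono {A B : Set S3} (h : A ⊆ B) : shC A ⊆ shC B :=
  fun _ ⟨hx, v, hv, e⟩ => ⟨hx, v, h hv, e⟩

theorem shC_inter (A B : Set S3) : shC (A ∩ B) = shC A ∩ shC B := by
  ext x
  refine ⟨fun h => ⟨shC_mono inter_subset_left h, shC_mono inter_subset_right h⟩, fun h => ?_⟩
  exact (Cone_mem h.1.1).2 ⟨(Cone_mem h.1.1).1 h.1, (Cone_mem h.1.1).1 h.2⟩

theorem shC_union (A B : Set S3) : shC (A ∪ B) = shC A ∪ shC B := by
  ext x
  refine ⟨fun ⟨hx, v, hv, e⟩ => hv.imp (fun h => ⟨hx, v, h, e⟩) fun h => ⟨hx, v, h, e⟩, ?_⟩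
  rintro (h | h)
  · exact shC_mono subset_union_left h
  · exact shC_mono subset_union_right h

theorem shC_iUnion {ι : Type} (A : ι → Set S3) : shC (⋃ i, A i) = ⋃ i, shC (A i) := by
  ext x
  refine ⟨fun ⟨hx, v, hv, e⟩ => ?_, fun h => ?_⟩
  · obtain ⟨i, hi⟩ := mem_iUnion.1 hv
    exact mem_iUnion.2 ⟨i, hx, v, hi, e⟩
  · obtain ⟨i, hi⟩ := mem_iUnion.1 h
    exact shC_mono (subset_iUnion A i) hi

theorem shC_disjoint {A B : Set S3} (h : Disjoint A B) : Disjoint (shC A) (shC B) :=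
  disjoint_left.2 fun _ h1 h2 =>
    disjoint_left.1 h ((Cone_mem h1.1).1 h1) ((Cone_mem h1.1).1 h2)

theorem shC_compl_KS : shC KSᶜ = shellO Kset := by
  ext x
  exact ⟨fun h => ⟨h.1, (Cone_mem h.1).1 h⟩, fun h => (Cone_mem h.1).2 h.2⟩

theorem Cone_isOpen : IsOpen shell :=
  (isOpen_lt continuous_const continuous_norm).inter (isOpen_lt continuous_norm continuous_const)

theorem Cone_contOn : ContinuousOn (fun x : E 4 => ‖x‖⁻¹ • x) shell :=
  (continuous_norm.continuousOn.inv₀ fun _ hx => (Cone_pos hx).ne').smul continuousOn_id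

theorem shC_isOpen {A : Set S3} (h : IsOpen A) : IsOpen (shC A) := by
  obtain ⟨U, hU, rfl⟩ := isOpen_induced_iff.1 h
  have e : shC (Subtype.val ⁻¹' U) = shell ∩ (fun x : E 4 => ‖x‖⁻¹ • x) ⁻¹' U := by
    ext x
    exact ⟨fun h => ⟨h.1, (Cone_mem h.1).1 h⟩, fun h => (Cone_mem h.1).2 h.2⟩
  rw [e]
  exact Cone_contOn.isOpen_inter_preimage Cone_isOpen hU

theorem shC_ctr {A : Set S3} (h : ContractibleSpace A) : ∃ x, Ctr (shC A) x := by
  classical
  obtain ⟨v, ⟨H⟩⟩ := (contractible_iff_id_nullhomotopic A).1 h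
  let N : ∀ x ∈ shC A, A := fun x hx => ⟨Cone_nrm x hx.1, (Cone_mem hx.1).1 hx⟩
  refine ⟨(3 / 4 : ℝ) • (v.1 : E 4), Cone_smul v.2 (by norm_num) (by norm_num),
    fun p => if hp : p.2 ∈ shC A then ((1 - p.1) * ‖p.2‖ + p.1 * (3 / 4)) •
      ((H (projIcc 0 1 zero_le_one p.1, N p.2 hp)).1 : E 4) else 0, ?_, ?_, ?_, ?_⟩
  · rw [continuousOn_iff_continuous_domRestrict]
    have hN : Continuous fun p : (Icc (0 : ℝ) 1 ×ˢ shC A : Set (ℝ × E 4)) => N p.1.2 p.2.2 := by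
      refine Continuous.subtype_mk (Continuous.subtype_mk ?_ _) _
      exact Cone_contOn.comp_continuous (continuous_snd.comp continuous_subtype_val)
        fun p => p.2.2.1
    have hc : Continuous fun p : (Icc (0 : ℝ) 1 ×ˢ shC A : Set (ℝ × E 4)) =>
        ((1 - p.1.1) * ‖p.1.2‖ + p.1.1 * (3 / 4)) •
          ((H (projIcc 0 1 zero_le_one p.1.1, N p.1.2 p.2.2)).1 : E 4) := by
      have h1 : Continuous fun p : (Icc (0 : ℝ) 1 ×ˢ shC A : Set (ℝ × E 4)) =>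
          (1 - p.1.1) * ‖p.1.2‖ + p.1.1 * (3 / 4) := by fun_prop
      exact h1.smul (continuous_subtype_val.comp (continuous_subtype_val.comp (H.continuous.comp
        ((continuous_projIcc.comp (continuous_fst.comp continuous_subtype_val)).prodMk hN))))
    refine hc.congr fun p => ?_
    rw [domRestrict_apply, dif_pos p.2.2]
  · rintro ⟨t, x⟩ ⟨⟨h0, h1⟩, hx⟩
    dsimp only at h0 h1 hx ⊢
    rw [dif_pos hx]
    have h2 := hx.1.1
    have h3 := hx.1.2
    refine Cone_smul (Subtype.prop _) ?_ ?_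
    · rcases eq_or_lt_of_le h1 with rfl | h4
      · norm_num
      · nlinarith [mul_pos (sub_pos.2 h4) (sub_pos.2 h2)]
    · rcases eq_or_lt_of_le h1 with rfl | h4
      · norm_num
      · nlinarith [mul_pos (sub_pos.2 h4) (sub_pos.2 h3)]
  · intro y hy
    dsimp only
    rw [dif_pos hy, projIcc_left, show (⟨0, left_mem_Icc.2 zero_le_one⟩ : unitInterval) = 0 from rfl,
      H.apply_zero]
    change ((1 - 0) * ‖y‖ + 0 * (3 / 4)) • ‖y‖⁻¹ • y = y
    rw [sub_zero, one_mul, zero_mul, add_zero, smul_smul, mul_inv_cancel₀ (Cone_pos hy.1).ne',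
      one_smul]
  · intro y hy
    dsimp only
    rw [dif_pos hy, projIcc_right,
      show (⟨1, right_mem_Icc.2 zero_le_one⟩ : unitInterval) = 1 from rfl, H.apply_one,
      sub_self, zero_mul, zero_add, one_mul]
    rfl

theorem Ctr.isPathConnected {X : Type} [TopologicalSpace X] {A : Set X} {x : X} (h : Ctr A x) :
    IsPathConnected A := by
  obtain ⟨hx, H, hc, hm, h0, h1⟩ := h
  refine ⟨x, hx, fun y hy => JoinedIn.symm ?_⟩
  refine JoinedIn.ofLine (f := fun t => H (t, y)) ?_ (h0 y hy) (h1 y hy) ?_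
  · exact hc.comp (continuous_id.prodMk continuous_const).continuousOn fun t ht => ⟨ht, hy⟩
  · rintro _ ⟨t, ht, rfl⟩
    exact hm ⟨ht, hy⟩

theorem exists_path_in {X : Type} [TopologicalSpace X] {A : Set X} (h : IsPathConnected A)
    {x y : X} (hx : x ∈ A) (hy : y ∈ A) :
    ∃ γ : C(unitInterval, X), γ 0 = x ∧ γ 1 = y ∧ ∀ t, γ t ∈ A := by
  obtain ⟨γ, hγ⟩ := h.joinedIn x hx y hy
  exact ⟨γ.toContinuousMap, γ.source, γ.target, hγ⟩

theorem shC_invS {A B : Set S3} (h : ∀ v ∈ A, iotS v ∈ B) :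
    MapsTo (invS iotE) (shC A) (shC B) := by
  rintro x ⟨hx, v, hv, e⟩
  have e2 : invS iotE x = (3 / 2 - ‖x‖) • (iotS v : E 4) := by
    change _ = (3 / 2 - ‖x‖) • iot v.1
    rw [← iotE_apply, e, map_smul, smul_smul, invS, div_eq_mul_inv]
  rw [e2]
  exact Cone_smul (h v hv) (by linarith [hx.2]) (by linarith [hx.1])

end Pool.Agent.MP_bc14e1_gt
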