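import Pool.Agent.MP_bc14e1_gt.Kn.Def

/-! General facts on twisted Dehn complexes. -/

namespace Pool.Agent.MP_bc14e1_gt

variable {Rg Cr : Type} {reg : Cr → Fin 4 → Rg} {gap : Rg → ℤ} {w : Rg → ℤ → ℂ} {R0 R1 : Rg}
  {m : ℤ}

theorem shT_single (m : ℤ) (r : Rg) (n : ℤ) (c : ℂ) :
    shT Rg m (Finsupp.single (r, n) c) = Finsupp.single (r, n + m) c := by
  rw [shT, Finsupp.lmapDomain_apply, Finsupp.mapDomain_single]

theorem Cx_sh_sh (m k : ℤ) (v : (Rg × ℤ) →₀ ℂ) : shT Rg m (shT Rg k v) = shT Rg (k + m) v := by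
  induction v using Finsupp.induction_linear with
  | zero => simp
  | add a b ha hb => simp only [map_add, ha, hb]
  | single z a =>
    obtain ⟨r, n⟩ := z
    simp only [shT_single, add_assoc]

theorem Cx_sh_zero (v : (Rg × ℤ) →₀ ℂ) : shT Rg 0 v = v := by
  induction v using Finsupp.induction_linear with
  | zero => simp
  | add a b ha hb => simp only [map_add, ha, hb]
  | single z a =>
    obtain ⟨r, n⟩ := z
    simp only [shT_single, add_zero]

theorem shT_pow (m : ℤ) (N : ℕ) : shT Rg m ^ N = shT Rg (m * N) := by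
  refine LinearMap.ext fun v => ?_
  induction N with
  | zero => simp [Cx_sh_zero]
  | succ N ih =>
    rw [pow_succ', Module.End.mul_apply, ih, Cx_sh_sh, Nat.cast_succ, mul_add, mul_one]

theorem Cx_d1 (gap : Rg → ℤ) (w : Rg → ℤ → ℂ) (r : Rg) (n : ℤ) (c : ℂ) :
    d1T gap w (Finsupp.single (r, n) c) =
      c • (w r n • Finsupp.single (true, n + gap r) 1 - Finsupp.single (false, n) 1) := by
  rw [d1T, Finsupp.linearCombination_single]

theorem Cx_d2 (reg : Cr → Fin 4 → Rg) (gap : Rg → ℤ) (w : Rg → ℤ → ℂ) (x : Cr) (n : ℤ) (c : ℂ) :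
    d2T reg gap w (Finsupp.single (x, n) c) =
      c • (Finsupp.single (reg x 0, n) 1 - Finsupp.single (reg x 1, n) 1 +
      (w (reg x 1) n / w (reg x 2) (n + (gap (reg x 1) - gap (reg x 2)))) •
        (Finsupp.single (reg x 2, n + (gap (reg x 1) - gap (reg x 2))) 1 -
          Finsupp.single (reg x 3, n + (gap (reg x 1) - gap (reg x 2))) 1)) := by
  rw [d2T, Finsupp.linearCombination_single]

theorem Cx_d1_sh (h : WOK reg gap w R0 R1 m) (v : (Rg × ℤ) →₀ ℂ) :
    d1T gap w (shT Rg m v) = shT Bool m (d1T gap w v) := by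
  induction v using Finsupp.induction_linear with
  | zero => simp
  | add a b ha hb => simp only [map_add, ha, hb]
  | single z a =>
    obtain ⟨r, n⟩ := z
    simp only [shT_single, Cx_d1, map_smul, map_sub, h.per, add_right_comm n m]

theorem Cx_d2_sh (h : WOK reg gap w R0 R1 m) (v : (Cr × ℤ) →₀ ℂ) :
    d2T reg gap w (shT Cr m v) = shT Rg m (d2T reg gap w v) := by
  induction v using Finsupp.induction_linear with
  | zero => simp
  | add a b ha hb => simp only [map_add, ha, hb]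
  | single z a =>
    obtain ⟨r, n⟩ := z
    simp only [shT_single, Cx_d2, map_smul, map_sub, map_add, h.per, add_right_comm n m]

theorem Cx_neg (h : WOK reg gap w R0 R1 m) : WOK reg gap w R0 R1 (-m) :=
  ⟨h.g0, h.g1, h.gq, h.w0, h.w1, h.ne, h.wq, fun r n => by
    rw [← h.per r (n + -m), neg_add_cancel_right]⟩

theorem Cx_supp_le {S : Submodule ℂ ((Rg × ℤ) →₀ ℂ)} (h0 : ∀ n, Finsupp.single (R0, n) 1 ∈ S)
    (h1 : ∀ n, Finsupp.single (R1, n) 1 ∈ S) :
    Finsupp.supported ℂ ℂ {x : Rg × ℤ | x.1 = R0 ∨ x.1 = R1} ≤ S := by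
  rw [Finsupp.supported_eq_span_single, Submodule.span_le]
  rintro _ ⟨⟨r, n⟩, rfl | rfl, rfl⟩
  exacts [h0 n, h1 n]

theorem WOK.range_le_ker (h : WOK reg gap w R0 R1 m) :
    LinearMap.range (d2T reg gap w) ≤ LinearMap.ker (d1T gap w) := by
  rintro _ ⟨v, rfl⟩
  rw [LinearMap.mem_ker]
  induction v using Finsupp.induction_linear with
  | zero => simp
  | add a b ha hb => simp only [map_add, ha, hb, add_zero]
  | single z a =>
    obtain ⟨x, n⟩ := z
    have e1 : n + (gap (reg x 1) - gap (reg x 2)) + gap (reg x 2) = n + gap (reg x 1) := by ring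
    have e2 : n + (gap (reg x 1) - gap (reg x 2)) + gap (reg x 3) = n + gap (reg x 0) := by
      rw [h.gq]; ring
    have e3 := h.wq x n
    have e4 := h.ne (reg x 2) (n + (gap (reg x 1) - gap (reg x 2)))
    simp only [Cx_d2, map_smul, map_sub, map_add, Cx_d1, one_smul, e1, e2]
    generalize w (reg x 2) (n + (gap (reg x 1) - gap (reg x 2))) = w2 at *
    generalize w (reg x 3) (n + (gap (reg x 1) - gap (reg x 2))) = w3 at *
    have e5 : w (reg x 0) n = w (reg x 1) n / w2 * w3 := by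
      field_simp
      exact e3
    have e6 : w (reg x 1) n / w2 * w2 = w (reg x 1) n := div_mul_cancel₀ _ e4
    rw [e5, sub_sub_sub_cancel_right, sub_sub_sub_cancel_right, smul_sub, smul_smul, smul_smul, e6,
      sub_add_sub_cancel, sub_self, smul_zero]

theorem WOK.sh_ker (h : WOK reg gap w R0 R1 m) :
    ∀ v ∈ LinearMap.ker (d1T gap w), shT Rg m v ∈ LinearMap.ker (d1T gap w) := by
  intro v hv
  rw [LinearMap.mem_ker] at hv ⊢
  rw [Cx_d1_sh h, hv, map_zero]

theorem WOK.sh_range (h : WOK reg gap w R0 R1 m) :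
    ∀ v ∈ LinearMap.range (d2T reg gap w), shT Rg m v ∈ LinearMap.range (d2T reg gap w) := by
  rintro _ ⟨v, rfl⟩
  exact ⟨_, Cx_d2_sh h v⟩

theorem Cx_sh_WT (h : WOK reg gap w R0 R1 m) {v : (Rg × ℤ) →₀ ℂ} (hv : v ∈ WT reg gap w R0 R1) :
    shT Rg m v ∈ WT reg gap w R0 R1 := by
  have : WT reg gap w R0 R1 ≤ (WT reg gap w R0 R1).comap (shT Rg m) := by
    refine sup_le (fun v hv => Submodule.mem_sup_left (h.sh_range v hv))
      (Cx_supp_le (fun n => ?_) fun n => ?_)
    · rw [Submodule.mem_comap, shT_single]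
      exact Submodule.mem_sup_right (Finsupp.single_mem_supported ℂ _ (Or.inl rfl))
    · rw [Submodule.mem_comap, shT_single]
      exact Submodule.mem_sup_right (Finsupp.single_mem_supported ℂ _ (Or.inr rfl))
  exact this hv

theorem WOK.sh_WT (h : WOK reg gap w R0 R1 m) :
    ∀ v, shT Rg m v ∈ WT reg gap w R0 R1 ↔ v ∈ WT reg gap w R0 R1 := by
  refine fun v => ⟨fun hv => ?_, Cx_sh_WT h⟩
  have := Cx_sh_WT (Cx_neg h) hv
  rwa [Cx_sh_sh, add_neg_cancel, Cx_sh_zero] at this

theorem Cx_coef (h : WOK reg gap w R0 R1 m) {f : (Rg × ℤ) →₀ ℂ}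
    (hf : f ∈ Finsupp.supported ℂ ℂ {x : Rg × ℤ | x.1 = R0 ∨ x.1 = R1}) (n : ℤ) :
    d1T gap w f (true, n + 1) = f (R0, n + 1) + f (R1, n) ∧
      d1T gap w f (false, n) = -(f (R0, n) + f (R1, n)) := by
  classical
  have hne : R0 ≠ R1 := fun e => by
    have := h.g1
    rw [← e, h.g0] at this
    exact zero_ne_one this
  constructor
  · have := Cx_supp_le (R0 := R0) (R1 := R1) (S := LinearMap.eqLocus
      ((Finsupp.lapply (true, n + 1) : _ →ₗ[ℂ] ℂ).comp (d1T gap w))
      (Finsupp.lapply (R0, n + 1) + Finsupp.lapply (R1, n))) (fun k => ?_) (fun k => ?_) hf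
    · exact this
    · simp [LinearMap.mem_eqLocus, Cx_d1, h.w0, h.g0, Finsupp.single_apply, hne]
    · simp [LinearMap.mem_eqLocus, Cx_d1, h.w1, h.g1, Finsupp.single_apply, hne.symm]
  · have := Cx_supp_le (R0 := R0) (R1 := R1) (S := LinearMap.eqLocus
      ((Finsupp.lapply (false, n) : _ →ₗ[ℂ] ℂ).comp (d1T gap w))
      (-(Finsupp.lapply (R0, n) + Finsupp.lapply (R1, n)))) (fun k => ?_) (fun k => ?_) hf
    · exact this
    · simp [LinearMap.mem_eqLocus, Cx_d1, h.w0, h.g0, Finsupp.single_apply, hne]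
    · simp [LinearMap.mem_eqLocus, Cx_d1, h.w1, h.g1, Finsupp.single_apply, hne.symm]

theorem WOK.ker_inf (h : WOK reg gap w R0 R1 m) :
    LinearMap.ker (d1T gap w) ⊓ WT reg gap w R0 R1 ≤ LinearMap.range (d2T reg gap w) := by
  rintro v ⟨h1, h2⟩
  obtain ⟨b, hb, f, hf, rfl⟩ := Submodule.mem_sup.1 h2
  have h3 : d1T gap w f = 0 := by
    have := LinearMap.mem_ker.1 h1
    rwa [map_add, LinearMap.mem_ker.1 (h.range_le_ker hb), zero_add] at this
  have c1 : ∀ n, f (R0, n + 1) + f (R1, n) = 0 := fun n => by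
    rw [← (Cx_coef h hf n).1, h3, Finsupp.zero_apply]
  have c2 : ∀ n, f (R0, n) + f (R1, n) = 0 := fun n => by
    rw [← neg_eq_zero, ← (Cx_coef h hf n).2, h3, Finsupp.zero_apply]
  have c3 : ∀ n, f (R1, n + 1) = f (R1, n) := fun n => by
    linear_combination c2 (n + 1) - c1 n
  have c4 : ∀ n, f (R1, n) = f (R1, 0) := fun n => by
    induction n using Int.induction_on with
    | zero => rfl
    | succ k ih => rw [c3, ih]
    | pred k ih => rw [← c3, sub_add_cancel, ih]
  obtain ⟨_, ⟨k, rfl⟩, hk⟩ := (Set.infinite_range_of_injective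
    (f := fun n : ℤ => (R1, n)) fun _ _ e => (Prod.ext_iff.1 e).2).exists_notMem_finset f.support
  have c5 : ∀ n, f (R1, n) = 0 := fun n => by
    rw [c4, ← c4 k]
    exact Finsupp.notMem_support_iff.1 hk
  have c6 : f = 0 := by
    ext ⟨r, n⟩
    by_contra e
    rcases hf (Finsupp.mem_support_iff.2 e) with rfl | rfl
    · exact e (by simpa [c5] using c2 n)
    · exact e (c5 n)
  rwa [c6, add_zero]

theorem WOK.sh_sub (h : WOK reg gap w R0 R1 m) :
    ∀ v, shT Rg m v - v ∈ LinearMap.ker (d1T gap w) ⊔ WT reg gap w R0 R1 := by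
  intro v
  set S := (Finsupp.supported ℂ ℂ {x : Rg × ℤ | x.1 = R0 ∨ x.1 = R1}).map (d1T gap w) with hS
  have m0 : ∀ n, Finsupp.single (true, n) 1 - Finsupp.single (false, n) 1 ∈ S := fun n =>
    ⟨_, Finsupp.single_mem_supported ℂ (a := (R0, n)) 1 (Or.inl rfl), by
      rw [Cx_d1, h.w0, h.g0, one_smul, one_smul, add_zero]⟩
  have m1 : ∀ n, Finsupp.single (true, n + 1) 1 - Finsupp.single (false, n) 1 ∈ S := fun n =>
    ⟨_, Finsupp.single_mem_supported ℂ (a := (R1, n)) 1 (Or.inr rfl), by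
      rw [Cx_d1, h.w1, h.g1, one_smul, one_smul]⟩
  have s1 : ∀ b n, Finsupp.single (b, n + 1) 1 - Finsupp.single (b, n) 1 ∈ S := by
    rintro (_ | _) n
    · simpa using S.sub_mem (m1 n) (m0 (n + 1))
    · simpa using S.sub_mem (m1 n) (m0 n)
  have s2 : ∀ b n k, Finsupp.single (b, n + k) 1 - Finsupp.single (b, n) 1 ∈ S := by
    intro b n k
    induction k using Int.induction_on with
    | zero => simp
    | succ k ih => simpa [add_assoc] using S.add_mem (s1 b (n + k)) ih
    | pred k ih => simpa [add_assoc] using S.sub_mem ih (s1 b (n + (-k - 1)))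
  have s3 : ∀ z, shT Bool m z - z ∈ S := by
    intro z
    induction z using Finsupp.induction_linear with
    | zero => simp
    | add a b ha hb =>
      rw [map_add, add_sub_add_comm]
      exact S.add_mem ha hb
    | single z a =>
      obtain ⟨b, n⟩ := z
      rw [shT_single]
      simpa [smul_sub] using S.smul_mem a (s2 b n m)
  obtain ⟨f, hf, e⟩ := s3 (d1T gap w v)
  refine Submodule.mem_sup.2 ⟨shT Rg m v - v - f, ?_, f, Submodule.mem_sup_right hf,
    sub_add_cancel _ _⟩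
  rw [LinearMap.mem_ker, map_sub, map_sub, Cx_d1_sh h, e, sub_self]

/-- The weights of a colouring. -/
theorem wok_of_col (χ : AddChar (Eis (ZMod 8)) ℂ) {c : Rg → Eis (ZMod 8)} (hc : IsCol reg gap c)
    (g0 : gap R0 = 0) (g1 : gap R1 = 1)
    (gq : ∀ c, gap (reg c 0) = gap (reg c 1) - gap (reg c 2) + gap (reg c 3))
    (c0 : c R0 = 0) (c1 : c R1 = 0) :
    WOK reg gap (fun r n => χ ((om (ZMod 8) ^ n : (Eis (ZMod 8))ˣ) * c r)) R0 R1 6 := by
  have h6 : om (ZMod 8) ^ (6 : ℤ) = 1 := by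
    rw [show (6 : ℤ) = (6 : ℕ) from rfl, zpow_natCast]
    ext <;> decide
  refine ⟨g0, g1, gq, fun n => ?_, fun n => ?_, fun r n e => ?_, fun x n => ?_, fun r n => ?_⟩
  · rw [c0, mul_zero, AddChar.map_zero_eq_one]
  · rw [c1, mul_zero, AddChar.map_zero_eq_one]
  · have := χ.map_add_eq_mul ((om (ZMod 8) ^ n : (Eis (ZMod 8))ˣ) * c r)
      (-((om (ZMod 8) ^ n : (Eis (ZMod 8))ˣ) * c r))
    rw [add_neg_cancel, AddChar.map_zero_eq_one, e, zero_mul] at this
    exact one_ne_zero this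
  · rw [← AddChar.map_add_eq_mul, ← AddChar.map_add_eq_mul, zpow_add, Units.val_mul]
    congr 1
    linear_combination ((om (ZMod 8) ^ n : (Eis (ZMod 8))ˣ) : Eis (ZMod 8)) * hc x
  · rw [zpow_add, h6, mul_one]

end Pool.Agent.MP_bc14e1_gt
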