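import Pool.Agent.MP_bc14e1_gt.Str
import Pool.Agent.MP_bc14e1_gt.K.CT

/-! The combinatorial data of the diagram. -/

open Set Metric

namespace Pool.Agent.MP_bc14e1_gt

/-- The four regions at a crossing. -/
def regK (k : Fin 22) : Fin 4 → Fin 24 :=
  ![qd k false false, qd k false true, qd k true true, qd k true false]

/-- The level of a region. -/
def gapK : Fin 24 → ℤ := ![1, 1, 2, 2, 1, 1, 1, 2, 2, 1, 1, 2, 2, 1, 1, 2, 2, 2, 1, 1, 2, 2, 0, 3]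

/-- The first colouring. -/
def colA : Fin 24 → Eis ℤ :=
  ![⟨1, 0⟩, ⟨1, -1⟩, ⟨0, 0⟩, ⟨1, -1⟩, ⟨0, -1⟩, ⟨0, 0⟩, ⟨1, -1⟩, ⟨1, 0⟩, ⟨0, 0⟩, ⟨-1, 0⟩, ⟨0, 1⟩,
    ⟨0, 1⟩, ⟨-1, 1⟩, ⟨0, 0⟩, ⟨-1, 1⟩, ⟨-1, 0⟩, ⟨0, 0⟩, ⟨-1, 1⟩, ⟨0, 1⟩, ⟨0, 0⟩, ⟨0, -1⟩, ⟨1, 0⟩,
    ⟨0, 0⟩, ⟨0, 0⟩]

/-- The second colouring. -/
def colB : Fin 24 → Eis ℤ :=
  ![⟨0, 0⟩, ⟨0, 0⟩, ⟨1, -1⟩, ⟨1, 0⟩, ⟨1, 0⟩, ⟨1, -1⟩, ⟨0, 0⟩, ⟨0, 0⟩, ⟨1, -1⟩, ⟨1, -1⟩, ⟨0, -1⟩,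
    ⟨1, -1⟩, ⟨1, -1⟩, ⟨0, 0⟩, ⟨1, -1⟩, ⟨2, -1⟩, ⟨1, 0⟩, ⟨1, -1⟩, ⟨0, -1⟩, ⟨0, 0⟩, ⟨1, 0⟩, ⟨0, 0⟩,
    ⟨0, 0⟩, ⟨1, 0⟩]

/-- The colouring modulo eight with the values `x` and `y` at the regions `21` and `23`. -/
def col8 (x y : Eis (ZMod 8)) (r : Fin 24) : Eis (ZMod 8) := x * red8 (colA r) + y * red8 (colB r)

/-- The exponent table belongs to the colouring with the values `x` and `y`. -/
def exOK (Ex : List (List ℕ)) (x y : Eis (ZMod 8)) : Prop :=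
  ∀ (k : Fin 22) (j : Fin 6), ((expo Ex k j : ℕ) : ZMod 8) =
    ((⟨0, 1⟩ : Eis (ZMod 8)) ^ (j : ℕ) * (col8 x y (regK k 1) -
      (if epsB k then (⟨0, 1⟩ : Eis (ZMod 8)) else ⟨1, -1⟩) * col8 x y (regK k 2))).re

instance (Ex : List (List ℕ)) (x y : Eis (ZMod 8)) : Decidable (exOK Ex x y) := by
  unfold exOK
  infer_instance

section

variable {Rg Cr : Type} (reg : Cr → Fin 4 → Rg) (gap : Rg → ℤ) (w : Rg → ℤ → ℂ)

/-- Weights of a twisted Dehn complex that are trivial at two regions and have period `m`. -/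
structure WOK (R0 R1 : Rg) (m : ℤ) : Prop where
  g0 : gap R0 = 0
  g1 : gap R1 = 1
  gq : ∀ c, gap (reg c 0) = gap (reg c 1) - gap (reg c 2) + gap (reg c 3)
  w0 : ∀ n, w R0 n = 1
  w1 : ∀ n, w R1 n = 1
  ne : ∀ r n, w r n ≠ 0
  wq : ∀ c n, w (reg c 0) n * w (reg c 2) (n + (gap (reg c 1) - gap (reg c 2))) =
    w (reg c 1) n * w (reg c 3) (n + (gap (reg c 1) - gap (reg c 2)))
  per : ∀ r n, w r (n + m) = w r n

/-- Boundaries together with the chains on the two base regions. -/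
noncomputable def WT (R0 R1 : Rg) : Submodule ℂ ((Rg × ℤ) →₀ ℂ) :=
  LinearMap.range (d2T reg gap w) ⊔ Finsupp.supported ℂ ℂ {x | x.1 = R0 ∨ x.1 = R1}

end

/-- The twelve generators. -/
noncomputable def genK (i : Fin 12) : (Fin 24 × ℤ) →₀ ℂ :=
  if (i : ℕ) < 6 then Finsupp.single (21, (i : ℕ)) 1 else Finsupp.single (23, (i : ℕ) - 6) 1

/-- The weights of the relations are the powers of `a` in the exponent table. -/
def WE (w : Fin 24 → ℤ → ℂ) (a : ℂ) (Ex : List (List ℕ)) : Prop :=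
  ∀ (k : Fin 22) (j : Fin 6), w (regK k 1) (j : ℕ) /
    w (regK k 2) ((j : ℕ) + (gapK (regK k 1) - gapK (regK k 2))) = a ^ expo Ex k j

theorem gapK_eps (k : Fin 22) :
    gapK (regK k 1) - gapK (regK k 2) = if epsB k then 1 else -1 := by
  revert k
  decide

theorem regK_one (k : Fin 22) : regK k 1 = k.castLE (by norm_num) := rfl

theorem gapK_quad (k : Fin 22) :
    gapK (regK k 0) = gapK (regK k 1) - gapK (regK k 2) + gapK (regK k 3) := by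
  revert k
  decide

theorem gapK_iotR (r : Fin 24) : gapK (iotR r) = 3 - gapK r := by
  revert r
  decide

/-- The cone over a subset of the sphere inside the shell. -/
def shC (A : Set S3) : Set (E 4) :=
  {x | x ∈ shell ∧ ∃ v ∈ A, (v : E 4) = ‖x‖⁻¹ • x}

end Pool.Agent.MP_bc14e1_gt
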