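import Pool.Agent.MP_bc14e1_gt.Kn.Cone
import Pool.Agent.MP_bc14e1_gt.K.R1
import Pool.Agent.MP_bc14e1_gt.K.R2
import Pool.Agent.MP_bc14e1_gt.K.R3
import Pool.Agent.MP_bc14e1_gt.K.R4

/-! The open cover of the knot complement. -/

open Set Metric

namespace Pool.Agent.MP_bc14e1_gt

theorem KnDehn_pc {A : Set S3} (h : ContractibleSpace A) : IsPathConnected (shC A) := by
  obtain ⟨x, hx⟩ := shC_ctr h
  exact hx.isPathConnected

theorem Dehn_ne (c : Fin 22) (i j : Bool) : (shC (Bp c i) ∩ shC (Bm c j)).Nonempty := by
  rw [← shC_inter]
  exact (KnDehn_pc (contractible_quad c i j)).nonempty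

theorem Dehn_sub (c : Fin 22) (i j : Bool) :
    shC (Bp c i) ∩ shC (Bm c j) ⊆ shC (Reg (qd c i j)) := by
  rw [← shC_inter]
  exact shC_mono (quad_subset c i j)

theorem Dehn_reg (R : Fin 24) : shC (Reg R) ⊆ shC Up ∩ shC Um := by
  rw [← shC_inter, Up_inter_Um]
  exact shC_mono (subset_iUnion Reg R)

theorem exists_dehn : ∃ D : DehnData (shellO Kset) regK, D.Sym (invS iotE) iotR := by
  obtain ⟨n, hn⟩ := shC_ctr contractible_Up
  obtain ⟨s, hs⟩ := shC_ctr contractible_Um
  have hr : ∀ R, ∃ x, x ∈ shC (Reg R) := fun R => (KnDehn_pc (contractible_Reg R)).nonempty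
  choose r hr using hr
  have ha := fun R => exists_path_in hn.isPathConnected hn.1 (Dehn_reg R (hr R)).1
  have hb := fun R => exists_path_in hs.isPathConnected (Dehn_reg R (hr R)).2 hs.1
  choose a a0 a1 am using ha
  choose b b0 b1 bm using hb
  refine ⟨{ Up := shC Up
            Lo := shC Um
            n := n
            s := s
            Rg := fun R => shC (Reg R)
            B := fun c => shC (Box c)
            U1 := fun c => shC (Bp c false)
            U2 := fun c => shC (Bp c true)
            L1 := fun c => shC (Bm c false)
            L2 := fun c => shC (Bm c true)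
            r := r
            a := a
            b := b
            opU := shC_isOpen isOpen_Up
            opL := shC_isOpen isOpen_Um
            ctU := hn
            ctL := hs
            opR := fun R => shC_isOpen (isOpen_Reg R)
            pcR := fun R => KnDehn_pc (contractible_Reg R)
            djR := fun R R' h => shC_disjoint (disjoint_Reg h)
            unR := by rw [← shC_inter, Up_inter_Um, shC_iUnion]
            opB := fun c => shC_isOpen (isOpen_Box c)
            ctB := fun c => shC_ctr (contractible_Box c)
            djB := fun c c' h => shC_disjoint (disjoint_Box h)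
            cover := by rw [← shC_compl_KS, compl_KS, shC_union, shC_union, shC_iUnion]
            op := fun c => ⟨shC_isOpen (isOpen_Bp c _), shC_isOpen (isOpen_Bp c _),
              shC_isOpen (isOpen_Bm c _), shC_isOpen (isOpen_Bm c _)⟩
            pc := fun c => ⟨KnDehn_pc (contractible_Bp c _), KnDehn_pc (contractible_Bp c _),
              KnDehn_pc (contractible_Bm c _), KnDehn_pc (contractible_Bm c _)⟩
            dj := fun c => ⟨shC_disjoint (disjoint_Bp c), shC_disjoint (disjoint_Bm c)⟩
            un := fun c => ⟨by rw [← shC_inter, Box_inter_Up, shC_union],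
              by rw [← shC_inter, Box_inter_Um, shC_union]⟩
            ne := fun c => ⟨Dehn_ne c _ _, Dehn_ne c _ _, Dehn_ne c _ _, Dehn_ne c _ _⟩
            sub := fun c => ⟨Dehn_sub c false false, Dehn_sub c false true,
              Dehn_sub c true true, Dehn_sub c true false⟩
            rm := hr
            a0 := a0
            a1 := a1
            am := am
            b0 := b0
            b1 := b1
            bm := bm }, ?_, ?_, ?_⟩
  · exact shC_invS fun v h => iotS_mem_Up h
  · exact shC_invS fun v h => iotS_mem_Um h
  · exact fun R => shC_invS fun v h => iotS_mem_Reg h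

end Pool.Agent.MP_bc14e1_gt
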