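import Pool.Agent.MP_bc14e1_gt.Kn.Abs
import Pool.Agent.MP_bc14e1_gt.Kn.Cx

/-! The untwisted homology. -/

open Polynomial

namespace Pool.Agent.MP_bc14e1_gt

/-- `x ^ 10` times a region in terms of the regions `21` and `23`. -/
def unT : List (List (List ℤ)) :=
  [[[0, 0, 0, 0, 0, 0, 0, 0, 0, 0, 1], []], [[0, 0, 0, 0, 0, 0, 0, 0, 0, 0, 1, -1], []], [[0, 0,
  0, 0, 0, 0, 0, 0, 0, -1, 1, -1], [0, 0, 0, 0, 0, 0, 0, 0, 0, 1]], [[0, 0, 0, 0, 0, 0, 0, 0, 1,
  -1, 2, -1], [0, 0, 0, 0, 0, 0, 0, 0, -1, 1]], [[0, 0, 0, 0, 0, 0, 0, 0, 1, -1, 2, -2, 1], [0,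
  0, 0, 0, 0, 0, 0, 0, -1, 1]], [[0, 0, 0, 0, 0, 0, 0, 0, 1, -2, 3, -3, 2, -1], [0, 0, 0, 0, 0,
  0, 0, 0, -1, 2, -1]], [[0, 0, 0, 0, 0, 0, 0, 0, 1, -2, 4, -4, 3, -2, 1], [0, 0, 0, 0, 0, 0, 0,
  0, -1, 2, -2, 1]], [[0, 0, 0, 0, 0, 0, 0, -1, 2, -4, 5, -4, 3, -2, 1], [0, 0, 0, 0, 0, 0, 0, 1,
  -2, 3, -2, 1]], [[0, 0, 0, 0, 0, 0, 1, -2, 5, -7, 8, -7, 5, -3, 1], [0, 0, 0, 0, 0, 0, -1, 2,
  -4, 5, -3, 1]], [[0, 0, 0, 0, 0, 0, 1, -2, 5, -8, 10, -11, 9, -6, 3, -1], [0, 0, 0, 0, 0, 0,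
  -1, 2, -4, 6, -5, 3, -1]], [[0, 0, 0, 0, 0, 0, 1, -3, 7, -12, 16, -17, 16, -12, 7, -3, 1], [0,
  0, 0, 0, 0, 0, -1, 3, -6, 9, -9, 6, -3, 1]], [[0, 0, 0, 0, 0, -1, 3, -8, 14, -20, 23, -22, 19,
  -13, 7, -3, 1], [0, 0, 0, 0, 0, 1, -3, 7, -11, 13, -10, 6, -3, 1]], [[0, 0, 0, 0, 1, -3, 9,
  -17, 27, -35, 38, -36, 29, -19, 10, -4, 1], [0, 0, 0, 0, -1, 3, -8, 14, -19, 20, -15, 9, -4,
  1]], [[0, 0, 0, 0, 1, -3, 9, -18, 30, -42, 50, -52, 46, -35, 22, -11, 4, -1], [0, 0, 0, 0, -1,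
  3, -8, 15, -22, 26, -24, 18, -10, 4, -1]], [[0, 0, 0, 0, 1, -4, 12, -26, 45, -65, 80, -86, 81,
  -65, 45, -26, 12, -4, 1], [0, 0, 0, 0, -1, 4, -11, 22, -34, 42, -41, 33, -22, 11, -4, 1]], [[0,
  0, 0, -1, 4, -13, 29, -53, 80, -103, 116, -115, 100, -75, 49, -27, 12, -4, 1], [0, 0, 0, 1, -4,
  12, -25, 41, -54, 58, -50, 37, -23, 11, -4, 1]], [[0, 0, 1, -4, 14, -33, 65, -106, 148, -181,
  195, -186, 156, -114, 72, -38, 16, -5, 1], [0, 0, -1, 4, -13, 29, -52, 76, -92, 93, -78, 56,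
  -33, 15, -5, 1]], [[0, -1, 4, -14, 34, -69, 118, -174, 226, -260, 266, -242, 195, -137, 83,
  -42, 17, -5, 1], [0, 1, -4, 13, -30, 56, -87, 114, -127, 121, -97, 66, -37, 16, -5, 1]], [[0,
  -1, 4, -14, 34, -70, 122, -186, 252, -305, 331, -322, 281, -218, 148, -87, 43, -17, 5, -1], [0,
  1, -4, 13, -30, 57, -91, 125, -149, 155, -139, 107, -70, 38, -16, 5, -1]], [[], []], [[1, -4,
  14, -34, 69, -118, 174, -226, 260, -266, 242, -195, 137, -83, 42, -17, 5, -1], [-1, 4, -13, 30,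
  -56, 87, -114, 127, -121, 98, -66, 37, -16, 5, -1]], [[0, 0, 0, 0, 0, 0, 0, 0, 0, 0, 1], []],
  [[], []], [[], [0, 0, 0, 0, 0, 0, 0, 0, 0, 0, 1]]]

/-- The relation matrix divided by `x ^ 2 - x + 1`. -/
def unB : List (List (List ℤ)) :=
  [[[0, 1, -4, 13, -31, 59, -98, 139, -175, 198, -198, 177, -142, 99, -60, 31, -13, 4, -1], [0,
  -1, 4, -12, 27, -47, 70, -88, 94, -88, 70, -47, 27, -12, 4, -1]], [[1, -3, 10, -21, 38, -59,
  77, -90, 93, -83, 66, -45, 26, -12, 4, -1], [-1, 3, -9, 18, -29, 40, -45, 42, -34, 22, -11, 4,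
  -1]]]

/-- An entry of the table. -/
def unE (r : Fin 24) (i : Fin 2) : List Z8 := ofInts ((unT.getD r []).getD i [])

/-- An entry of the matrix. -/
def unM (k i : Fin 2) : List Z8 := ofInts ((unB.getD k []).getD i [])

/-- The table solves the relations other than `19` and `21`. -/
theorem un_ok : ∀ (k : Fin 22) (i : Fin 2),
    (subZ (subZ (shZ (!epsB k) (subZ (unE (regK k 1) i) (unE (regK k 0) i)))
      (shZ (epsB k) (subZ (unE (regK k 2) i) (unE (regK k 3) i))))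
      (if (k : ℕ) = 19 then mulZ (ofInts [1, -1, 1]) (unM 0 i)
        else if (k : ℕ) = 21 then mulZ (ofInts [1, -1, 1]) (unM 1 i) else [])).all Z8.isZero
      = true := by
  decide +kernel

/-- The determinant is `4 + 0 x` modulo `x ^ 2 - x + 1`. -/
theorem un_det : (subZ (subZ (mulZ (unM 0 0) (unM 1 1)) (mulZ (unM 0 1) (unM 1 0)))
    (addZ (ofInts [4, 0]) (mulZ (ofInts [1, -1, 1]) (ofInts
      [-4, -4, 0, 4, 4, 0, -4, -4, 0, 4, 5, -3, 6, -25, 36, -51, 70, -71, 66, -55, 36, -21, 10,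
      -3, 1])))).all Z8.isZero = true := by
  decide +kernel

/-- The quotient by an invariant subspace as a module over the polynomial ring. -/
theorem L2_quot {V : Type} [AddCommGroup V] [Module ℂ V] (S : Module.End ℂ V)
    (W : Submodule ℂ V) (hW : ∀ v ∈ W, S v ∈ W) :
    ∃ (M : Type) (_ : AddCommGroup M) (_ : Module ℂ[X] M) (π : V →+ M),
      Function.Surjective π ∧ (∀ v, π v = 0 ↔ v ∈ W) ∧
        ∀ (p : ℂ[X]) v, π (aeval S p v) = p • π v := by
  have hW' : W ≤ W.comap S := fun v hv => hW v hv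
  set T : Module.End ℂ (V ⧸ W) := W.mapQ W S hW' with hT
  have h1 : ∀ (n : ℕ) (v : V), W.mkQ ((S ^ n) v) = (T ^ n) (W.mkQ v) := by
    intro n
    induction n with
    | zero => intro v; rfl
    | succ n ih =>
      intro v
      rw [pow_succ, pow_succ, Module.End.mul_apply, Module.End.mul_apply, ih]
      rfl
  have h2 : ∀ (p : ℂ[X]) (v : V), W.mkQ (aeval S p v) = aeval T p (W.mkQ v) := by
    intro p v
    induction p using Polynomial.induction_on' with
    | add p q hp hq => rw [map_add, map_add, LinearMap.add_apply, LinearMap.add_apply, map_add,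
        hp, hq]
    | monomial n a =>
      rw [aeval_monomial, aeval_monomial, Module.End.mul_apply, Module.End.mul_apply,
        Module.algebraMap_end_apply, Module.algebraMap_end_apply, map_smul, h1]
  refine ⟨Module.AEval' T, inferInstance, inferInstance,
    ((Module.AEval'.of T).toLinearMap ∘ₗ W.mkQ).toAddMonoidHom, ?_, ?_, ?_⟩
  · exact (Module.AEval'.of T).surjective.comp W.mkQ_surjective
  · intro v
    change Module.AEval'.of T (W.mkQ v) = 0 ↔ _
    rw [LinearEquiv.map_eq_zero_iff, Submodule.mkQ_apply, Submodule.Quotient.mk_eq_zero]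
  · intro p v
    change Module.AEval'.of T (W.mkQ (aeval S p v)) = p • Module.AEval'.of T (W.mkQ v)
    rw [h2, ← Module.AEval.of_aeval_smul]
    rfl

theorem L2_ord : ∀ k : Fin 22,
    (((regK k 0 : Fin 24) : ℕ) < k ∨ regK k 0 = 19 ∨ regK k 0 = 21) ∧
    (((regK k 3 : Fin 24) : ℕ) < k ∨ regK k 3 = 19 ∨ regK k 3 = 21) ∧
    (regK k 2 = 22 ∨ regK k 2 = 23) := by
  decide

theorem L2_phi {R : Type} [CommRing R] (a x : R) :
    evZ a x (ofInts [1, -1, 1]) = x ^ 2 - x + 1 := by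
  simp [ofInts, evZ, Z8.ev]
  ring

/-- The consequences of the relations in a module on which `X` is injective. -/
theorem L2_mod {R M : Type} [CommRing R] [AddCommGroup M] [Module R M] (a x : R)
    (ha : a ^ 4 = -1) (hx : ∀ m : M, x • m = 0 → m = 0) (e : Fin 24 → M)
    (h22 : e 22 = 0) (h19 : e 19 = 0)
    (hrel : ∀ k : Fin 22, (if !epsB k then x else 1) • (e (regK k 1) - e (regK k 0)) =
      (if epsB k then x else 1) • (e (regK k 2) - e (regK k 3))) :
    (∀ r, x ^ 10 • e r = evZ a x (unE r 0) • e 21 + evZ a x (unE r 1) • e 23) ∧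
    ∀ d, d = (x ^ 2 - x + 1) * (evZ a x (unM 0 0) * evZ a x (unM 1 1) -
      evZ a x (unM 0 1) * evZ a x (unM 1 0)) → d • e 21 = 0 ∧ d • e 23 = 0 := by
  obtain ⟨del, hdel⟩ : ∃ del : Fin 24 → M, ∀ r, del r =
      x ^ 10 • e r - (evZ a x (unE r 0) • e 21 + evZ a x (unE r 1) • e 23) := ⟨_, fun _ => rfl⟩
  obtain ⟨res, hres⟩ : ∃ res : Fin 22 → Fin 2 → R, ∀ k i, res k i =
      evZ a x (if (k : ℕ) = 19 then mulZ (ofInts [1, -1, 1]) (unM 0 i)
        else if (k : ℕ) = 21 then mulZ (ofInts [1, -1, 1]) (unM 1 i) else []) :=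
    ⟨_, fun _ _ => rfl⟩
  have key : ∀ k : Fin 22, (if !epsB k then x else 1) • (del (regK k 1) - del (regK k 0)) -
      (if epsB k then x else 1) • (del (regK k 2) - del (regK k 3)) +
      (res k 0 • e 21 + res k 1 • e 23) = 0 := by
    intro k
    have h0 := evZ_of_all a x (un_ok k 0)
    have h1 := evZ_of_all a x (un_ok k 1)
    rw [evZ_subZ, evZ_subZ, evZ_shZ, evZ_shZ, evZ_subZ, evZ_subZ, ← hres] at h0 h1
    have h2 := hrel k
    simp only [hdel]
    generalize (if !epsB k then x else 1) = u at h0 h1 h2 ⊢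
    generalize (if epsB k then x else 1) = v at h0 h1 h2 ⊢
    rw [sub_eq_zero] at h0 h1
    rw [← h0, ← h1]
    linear_combination (norm := module) x ^ 10 • h2
  have e10 : evZ a x (ofInts [0, 0, 0, 0, 0, 0, 0, 0, 0, 0, 1]) = x ^ 10 := by
    simp [ofInts, evZ, Z8.ev]
    ring
  have e0 : evZ a x (ofInts []) = 0 := rfl
  have d19 : del 19 = 0 := by
    rw [hdel, h19]
    change _ - (evZ a x (ofInts []) • _ + evZ a x (ofInts []) • _) = 0
    simp [e0]
  have d22 : del 22 = 0 := by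
    rw [hdel, h22]
    change _ - (evZ a x (ofInts []) • _ + evZ a x (ofInts []) • _) = 0
    simp [e0]
  have d21 : del 21 = 0 := by
    rw [hdel]
    change _ - (evZ a x (ofInts [0, 0, 0, 0, 0, 0, 0, 0, 0, 0, 1]) • _ +
      evZ a x (ofInts []) • _) = 0
    simp [e0, e10]
  have d23 : del 23 = 0 := by
    rw [hdel]
    change _ - (evZ a x (ofInts []) • _ +
      evZ a x (ofInts [0, 0, 0, 0, 0, 0, 0, 0, 0, 0, 1]) • _) = 0
    simp [e0, e10]
  have hall : ∀ (n : ℕ) (r : Fin 24), (r : ℕ) = n → del r = 0 := by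
    intro n
    induction n using Nat.strong_induction_on with
    | _ n ih =>
      intro r hr
      by_cases h1 : n = 19
      · obtain rfl : r = 19 := Fin.ext (by rw [hr, h1]; rfl)
        exact d19
      by_cases h2 : n = 21
      · obtain rfl : r = 21 := Fin.ext (by rw [hr, h2]; rfl)
        exact d21
      by_cases h3 : n = 22
      · obtain rfl : r = 22 := Fin.ext (by rw [hr, h3]; rfl)
        exact d22
      by_cases h4 : n = 23
      · obtain rfl : r = 23 := Fin.ext (by rw [hr, h4]; rfl)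
        exact d23
      have hn : n < 22 := by have := r.2; omega
      obtain ⟨o0, o3, o2⟩ := L2_ord ⟨n, hn⟩
      have k0 : del (regK ⟨n, hn⟩ 0) = 0 := by
        rcases o0 with h | h | h
        · exact ih _ h _ rfl
        · rw [h, d19]
        · rw [h, d21]
      have k3 : del (regK ⟨n, hn⟩ 3) = 0 := by
        rcases o3 with h | h | h
        · exact ih _ h _ rfl
        · rw [h, d19]
        · rw [h, d21]
      have k2 : del (regK ⟨n, hn⟩ 2) = 0 := by
        rcases o2 with h | h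
        · rw [h, d22]
        · rw [h, d23]
      have k1 : regK ⟨n, hn⟩ 1 = r := Fin.ext hr.symm
      have h := key ⟨n, hn⟩
      rw [k0, k2, k3, k1, hres, hres] at h
      simp only [h1, h2, if_false, evZ, zero_smul, add_zero, sub_zero, smul_zero] at h
      split_ifs at h
      · exact hx _ h
      · rwa [one_smul] at h
  have hz : ∀ r, del r = 0 := fun r => hall _ r rfl
  refine ⟨fun r => sub_eq_zero.1 (hdel r ▸ hz r), ?_⟩
  rintro d rfl
  have r0 := key 19
  have r1 := key 21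
  have s0 : ∀ i, res 19 i = (x ^ 2 - x + 1) * evZ a x (unM 0 i) := fun i => by
    rw [hres, ← L2_phi a, ← evZ_mulZ a x ha]
    rfl
  have s1 : ∀ i, res 21 i = (x ^ 2 - x + 1) * evZ a x (unM 1 i) := fun i => by
    rw [hres, ← L2_phi a, ← evZ_mulZ a x ha]
    rfl
  simp only [hz, sub_self, smul_zero, zero_add, s0, s1] at r0 r1
  constructor
  · linear_combination (norm := module) evZ a x (unM 1 1) • r0 - evZ a x (unM 0 1) • r1
  · linear_combination (norm := module) evZ a x (unM 0 0) • r1 - evZ a x (unM 1 0) • r0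

theorem L2_om : (omC : ℂ) ^ 2 - omC + 1 = 0 := by
  have h : (omC : ℂ) = 1 / 2 + (√3 / 2 : ℝ) * Complex.I := by
    rw [omC, Circle.coe_exp, Complex.exp_mul_I, ← Complex.ofReal_cos, ← Complex.ofReal_sin,
      Real.cos_pi_div_three, Real.sin_pi_div_three]
    push_cast
    ring
  have h3 : ((√3 : ℝ) : ℂ) ^ 2 = 3 := by
    rw [← Complex.ofReal_pow, Real.sq_sqrt (by norm_num)]
    norm_num
  rw [h]
  push_cast
  linear_combination (-1 / 4 : ℂ) * h3 + ((√3 : ℝ) : ℂ) ^ 2 / 4 * Complex.I_sq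

theorem L2_wok : WOK regK gapK (fun _ _ => 1) 22 19 1 :=
  ⟨rfl, rfl, gapK_quad, fun _ => rfl, fun _ => rfl, fun _ _ => one_ne_zero, fun _ _ => rfl,
    fun _ _ => rfl⟩

theorem len2_K : Len2T regK gapK omC := by
  obtain ⟨a, ha⟩ : ∃ a : ℂ, a ^ 4 = -1 := IsAlgClosed.exists_pow_nat_eq _ (by norm_num)
  have ha' : (C a : ℂ[X]) ^ 4 = -1 := by rw [← C_pow, ha]; simp
  have hz := L2_om
  generalize (omC : ℂ) = z at hz ⊢
  have hz0 : z ≠ 0 := by rintro rfl; norm_num at hz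
  have hz1 : z ≠ 1 := by rintro rfl; norm_num at hz
  have hz2 : z - (1 - z) ≠ 0 := by
    intro h
    have : z = 1 / 2 := by linear_combination h / 2
    rw [this] at hz
    norm_num at hz
  have hw := L2_wok
  set S := shT (Fin 24) 1 with hS
  set W := WT regK gapK (fun _ _ => 1) 22 19 with hW
  obtain ⟨M, _, _, π, hsurj, hker, hπ⟩ := L2_quot S W fun v hv => (hw.sh_WT v).2 hv
  have hX : ∀ v, π (S v) = (X : ℂ[X]) • π v := fun v => by rw [← hπ, aeval_X]
  have hC : ∀ (c : ℂ) v, π (c • v) = (C c : ℂ[X]) • π v := fun c v => by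
    rw [← hπ, aeval_C, Module.algebraMap_end_apply]
  have hinj : ∀ m : M, (X : ℂ[X]) • m = 0 → m = 0 := by
    intro m hm
    obtain ⟨v, rfl⟩ := hsurj m
    rw [← hX, hker] at hm
    exact (hker v).2 ((hw.sh_WT v).1 hm)
  have hinjn : ∀ (n : ℕ) (m : M), (X : ℂ[X]) ^ n • m = 0 → m = 0 := by
    intro n
    induction n with
    | zero => intro m hm; rwa [pow_zero, one_smul] at hm
    | succ n ih => intro m hm; rw [pow_succ, mul_smul] at hm; exact hinj _ (ih _ hm)
  have hsh : ∀ (r : Fin 24) (n : ℤ), π (Finsupp.single (r, n + 1) 1) =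
      (X : ℂ[X]) • π (Finsupp.single (r, n) 1) := fun r n => by rw [← hX, hS, shT_single]
  have hshn : ∀ (r : Fin 24) (n : ℤ) (j : ℕ), π (Finsupp.single (r, n + j) 1) =
      (X : ℂ[X]) ^ j • π (Finsupp.single (r, n) 1) := by
    intro r n j
    induction j with
    | zero => simp
    | succ j ih => rw [Nat.cast_succ, ← add_assoc, hsh, ih, pow_succ', mul_smul]
  have hbase : ∀ r : Fin 24, r = 22 ∨ r = 19 → π (Finsupp.single (r, 0) 1) = 0 := by
    intro r hr
    rw [hker]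
    exact Submodule.mem_sup_right (Finsupp.single_mem_supported _ _ hr)
  have hd2 : ∀ (k : Fin 22) (n : ℤ), π (Finsupp.single (regK k 0, n) 1) -
      π (Finsupp.single (regK k 1, n) 1) +
      (π (Finsupp.single (regK k 2, n + if epsB k then 1 else -1) 1) -
        π (Finsupp.single (regK k 3, n + if epsB k then 1 else -1) 1)) = 0 := by
    intro k n
    rw [← map_sub, ← map_sub, ← map_add, hker]
    refine Submodule.mem_sup_left ⟨Finsupp.single (k, n) 1, ?_⟩
    rw [d2T, Finsupp.linearCombination_single, one_smul]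
    simp only [gapK_eps, div_one, one_smul]
  obtain ⟨hgen, hdet⟩ := L2_mod (C a) X ha' hinj (fun r => π (Finsupp.single (r, 0) 1))
    (hbase _ (Or.inl rfl)) (hbase _ (Or.inr rfl)) (by
      intro k
      cases h : epsB k
      · have h1 := hd2 k (0 + 1)
        simp only [h, Bool.false_eq_true, if_false, add_neg_cancel_right, hsh] at h1
        simp only [Bool.not_false, if_true, Bool.false_eq_true, if_false]
        linear_combination (norm := module) -h1
      · have h1 := hd2 k 0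
        simp only [h, if_true, hsh] at h1
        simp only [Bool.not_true, if_true, Bool.false_eq_true, if_false]
        linear_combination (norm := module) -h1)
  set g0 : (Fin 24 × ℤ) →₀ ℂ := Finsupp.single (21, 0) 1 with hg0
  set g1 : (Fin 24 × ℤ) →₀ ℂ := Finsupp.single (23, 0) 1 with hg1
  have hall : ∀ v, ∃ (n : ℕ) (p q : ℂ[X]), (X : ℂ[X]) ^ n • π v = p • π g0 + q • π g1 := by
    intro v
    induction v using Finsupp.induction_linear with
    | zero => exact ⟨0, 0, 0, by simp⟩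
    | add u v hu hv =>
      obtain ⟨n, p, q, h⟩ := hu
      obtain ⟨n', p', q', h'⟩ := hv
      refine ⟨n + n', X ^ n' * p + X ^ n * p', X ^ n' * q + X ^ n * q', ?_⟩
      rw [map_add]
      linear_combination (norm := module) (X : ℂ[X]) ^ n' • h + (X : ℂ[X]) ^ n • h'
    | single x c =>
      obtain ⟨r, n⟩ := x
      obtain ⟨b, hb⟩ : ∃ b : ℕ, n + (n.natAbs : ℕ) = 0 + b := ⟨(n + n.natAbs).toNat, by omega⟩
      have h1 := hshn r n n.natAbs
      rw [hb, hshn] at h1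
      have h2 := hgen r
      have h3 : (Finsupp.single (r, n) c : (Fin 24 × ℤ) →₀ ℂ) = c • Finsupp.single (r, n) 1 := by
        simp
      refine ⟨10 + n.natAbs, C c * X ^ b * evZ (C a) X (unE r 0),
        C c * X ^ b * evZ (C a) X (unE r 1), ?_⟩
      rw [h3, hC]
      linear_combination (norm := module) (C c * X ^ b : ℂ[X]) • h2 - (C c * X ^ 10 : ℂ[X]) • h1
  obtain ⟨dt, hdt⟩ : ∃ dt : ℂ[X], dt = evZ (C a) X (unM 0 0) * evZ (C a) X (unM 1 1) -
      evZ (C a) X (unM 0 1) * evZ (C a) X (unM 1 0) := ⟨_, rfl⟩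
  have hdz : dt.eval z = 4 := by
    have h := evZ_of_all (C a) X un_det
    rw [evZ_subZ, evZ_subZ, evZ_addZ, evZ_mulZ _ _ ha', evZ_mulZ _ _ ha', evZ_mulZ _ _ ha',
      L2_phi, ← hdt, sub_eq_zero] at h
    rw [h, eval_add, eval_mul]
    simp [hz, ofInts, evZ, Z8.ev]
  have hphi : (X - C z) * ((X - C (1 - z)) * dt) = (X ^ 2 - X + 1) * dt := by
    have : (C z : ℂ[X]) ^ 2 - C z + 1 = 0 := by
      rw [← C_pow, ← C_sub, ← C_1, ← C_add, hz, C_0]
    rw [C_sub, C_1]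
    linear_combination (-dt) * this
  obtain ⟨k0, k1⟩ := hdet _ (hphi.trans (by rw [hdt]))
  obtain ⟨A, B⟩ := abs_len2 S _ _ W hw.sh_ker (fun v hv => (hw.sh_WT v).2 hv) hw.ker_inf
    hw.sh_sub hz1 (D := (X - C (1 - z)) * dt) (by
      intro v
      obtain ⟨n, p, q, h⟩ := hall v
      rw [← hker, hπ]
      apply hinjn n
      linear_combination (norm := module)
        ((X - C z) * ((X - C (1 - z)) * dt) : ℂ[X]) • h + p • k0 + q • k1)
    g0 g1 (by
      intro v
      obtain ⟨n, p, q, h⟩ := hall v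
      obtain ⟨s, hs⟩ := X_sub_C_dvd_sub_C_eval (a := z) (p := (X ^ n : ℂ[X]))
      obtain ⟨p', hp⟩ := X_sub_C_dvd_sub_C_eval (a := z) (p := p)
      obtain ⟨q', hq⟩ := X_sub_C_dvd_sub_C_eval (a := z) (p := q)
      rw [eval_pow, eval_X] at hs
      obtain ⟨u, hu⟩ := hsurj ((C (z ^ n)⁻¹ : ℂ[X]) • (p' • π g0 + q' • π g1 - s • π v))
      refine ⟨(z ^ n)⁻¹ * p.eval z, (z ^ n)⁻¹ * q.eval z, u, ?_⟩
      have hc : (C (z ^ n)⁻¹ : ℂ[X]) * C (z ^ n) = 1 := by
        rw [← C_mul, inv_mul_cancel₀ (pow_ne_zero n hz0), C_1]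
      rw [← hker, map_sub, map_sub, map_sub, map_sub, hC, hC, hC, hX, hu, C_mul, C_mul]
      linear_combination (norm := module) (C (z ^ n)⁻¹ : ℂ[X]) • h - hc • π v -
        (C (z ^ n)⁻¹ * hs) • π v + (C (z ^ n)⁻¹ * hp) • π g0 + (C (z ^ n)⁻¹ * hq) • π g1)
  refine ⟨⟨(X - C (1 - z)) * dt, ?_, fun y hy => A y hy⟩, ?_⟩
  · rw [eval_mul, hdz, eval_sub, eval_X, eval_C]
    exact mul_ne_zero hz2 (by norm_num)
  · obtain ⟨x₁, h₁, x₂, h₂, h⟩ := B
    refine ⟨x₁, x₂, h₁, h₂, fun y hy => ?_⟩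
    obtain ⟨μ₁, μ₂, y', hy', h'⟩ := h y hy
    exact ⟨μ₁, μ₂, y', hy', h'⟩

end Pool.Agent.MP_bc14e1_gt
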