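import Pool.Agent.MP_bc14e1_gt.If
import Pool.Agent.MP_bc14e1_gt.Kn.All
import Pool.Agent.MP_bc14e1_gt.Kn.L2
import Pool.Agent.MP_bc14e1_gt.Kn.Dehn
import Pool.Agent.MP_bc14e1_gt.K.Sum
import Pool.Agent.MP_bc14e1_gt.K.SZ

/-! The knot and its certificate. -/

open Set Metric

namespace Pool.Agent.MP_bc14e1_gt

theorem cert_K : Nonempty (Cert regK iotR) :=
  ⟨{ gap := gapK
     R0 := 22
     R1 := 19
     g0 := rfl
     g1 := rfl
     gρ := ⟨3, gapK_iotR⟩
     gapU := gapK_univ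
     c1 := colA
     c2 := colB
     col1 := colA_col
     col2 := colB_col
     colZ := col_univ
     len2 := len2_K
     tw := tw_all
     ex := by
      obtain ⟨χ, h⟩ := line08
      refine ⟨0, 1, χ, ?_⟩
      have e : (fun r => red8 (0 * colA r + 1 * colB r)) = col8 ⟨2 * 0, -0⟩ ⟨1, 0⟩ := by
        funext r
        rw [red8_comb]
        congr 1
      rwa [e] }⟩

theorem knot_stmt : KnotStmt := by
  obtain ⟨K, hK, hodd, R₀, h0, hfar⟩ := exists_longKnot
  have hD := exists_dehn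
  rw [← hK] at hD
  obtain ⟨D, hD⟩ := hD
  refine ⟨K, iotE, Fin 24, Fin 22, inferInstance, inferInstance, regK, iotR, D,
    slice_sum K hodd h0 hfar, fun x => by rw [iotE_apply, iotE_apply, iot_iot], iotE_det, ?_, ?_,
    hD, cert_K⟩
  · rw [hK, iotE_image]
  · rw [hK]
    intro x hx
    rw [iotE_apply]
    exact iot_ne hx

theorem closeUp_subset_sphere (f : ℝ → E 3) : closeUp f ⊆ sphere 0 1 := by
  have key (v : E 4) (h : v 0 ^ 2 + v 1 ^ 2 + v 2 ^ 2 + v 3 ^ 2 = 1) : v ∈ sphere (0 : E 4) 1 := by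
    rw [mem_sphere_zero_iff_norm, EuclideanSpace.norm_eq, Real.sqrt_eq_one, Fin.sum_univ_four]
    simpa using h
  rintro _ (rfl | ⟨t, rfl⟩)
  · exact key _ (by simp)
  · refine key _ ?_
    have h : ‖f t‖ ^ 2 = f t 0 ^ 2 + f t 1 ^ 2 + f t 2 ^ 2 := by
      rw [EuclideanSpace.norm_sq_eq, Fin.sum_univ_three]
      simp
    have h1 : (1 + ‖f t‖ ^ 2) ≠ 0 := by positivity
    simp only [stereoInv, PiLp.smul_apply, smul_eq_mul, Matrix.cons_val_zero, Matrix.cons_val_one,
      Matrix.cons_val]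
    field_simp
    rw [h]
    ring

theorem sliceZero_stmt : SliceZeroStmt := fun _ hK h => zeroSign_of_slice hK h 1

end Pool.Agent.MP_bc14e1_gt
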