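import Pool.Agent.MP_bc14e1_gt.Kn.Cx

/-! Soundness of the elimination table: the eigenfunctional. -/

open Polynomial

namespace Pool.Agent.MP_bc14e1_gt

/-- The values of the functional. -/
noncomputable def TabF_g (s : ℂ) (f : Fin 24 → Fin 6 → ℂ) (x : Fin 24 × ℤ) : ℂ :=
  s ^ (x.2 / 6) * f x.1 ⟨(x.2 % 6).toNat, by omega⟩

theorem TabF_g_eq (s : ℂ) (f : Fin 24 → Fin 6 → ℂ) (r : Fin 24) (q : ℤ) (j : Fin 6) {n : ℤ}
    (h : n = 6 * q + (j : ℕ)) : TabF_g s f (r, n) = s ^ q * f r j := by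
  have h1 : n / 6 = q := by omega
  have h2 : (⟨(n % 6).toNat, by omega⟩ : Fin 6) = j := Fin.ext (by simp only; omega)
  simp only [TabF_g, h1, h2]

theorem TabF_dec (n : ℤ) : ∃ (q : ℤ) (j : Fin 6), n = 6 * q + (j : ℕ) :=
  ⟨n / 6, ⟨(n % 6).toNat, by omega⟩, by simp only; omega⟩

theorem TabF_idx (k : Fin 22) (j : Fin 6) : ((j : ℕ) : ℤ) + (if epsB k then 1 else -1) =
    6 * ((if upB k j then 1 else 0) - if dnB k j then 1 else 0) + (nj k j : ℕ) := by
  unfold upB dnB nj
  generalize epsB k = b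
  revert b j
  decide

theorem TabF_pow {s : ℂ} (h0 : s ≠ 0) (q : ℤ) (b c : Bool) :
    s ^ (q + ((if b then 1 else 0) - if c then 1 else 0) : ℤ) * (if c then s else 1) =
      s ^ q * if b then s else 1 := by
  cases b <;> cases c <;> simp [zpow_add₀ h0, h0]

theorem TabF_per {g : ℤ → ℂ} (h : ∀ n, g (n + 6) = g n) (q n : ℤ) : g (6 * q + n) = g n := by
  have := Function.Periodic.int_mul (f := g) (c := 6) h q n
  rwa [Int.cast_id, add_comm, mul_comm] at this

theorem TabF_ini (a s : ℂ) (r : Fin 24) (j : Fin 6) (i : Fin 12) : evZ a s (ini r j i) =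
    if ((r : ℕ) = 21 ∧ (i : ℕ) = j) ∨ ((r : ℕ) = 23 ∧ (i : ℕ) = j + 6) then s ^ 2 else 0 := by
  unfold ini
  split_ifs
  · simp [ofInts, evZ, Z8.ev, pow_two]
  · rfl

theorem tab_fun {Ex : List (List ℕ)} {A : List (List (List Z8))} {T : Tab} {a : ℂ}
    {w : Fin 24 → ℤ → ℂ} (h : tabOK Ex A T = true) (ha : a ^ 4 = -1)
    (hw : WOK regK gapK w 22 19 6) (hE : WE w a Ex) {s₀ : ℂ} (h0 : s₀ ≠ 0) {u : Fin 12 → ℂ}
    (hu : u ≠ 0)
    (hA : ((Matrix.of fun i j => evZ (C a) X (en₂ A i j)).map (eval s₀)).mulVec u = 0) :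
    ∃ φ : ((Fin 24 × ℤ) →₀ ℂ) →ₗ[ℂ] ℂ, (∀ v ∈ WT regK gapK w 22 19, φ v = 0) ∧
      (∀ v, φ (shT (Fin 24) 6 v) = s₀ * φ v) ∧ φ ≠ 0 := by
  simp only [tabOK, Bool.and_eq_true, List.all_eq_true (l := List.finRange _), List.mem_finRange,
    forall_const, List.all_cons, List.all_nil] at h
  obtain ⟨h1, h19, h21, h22, h23, -⟩ := h
  have e0 : ∀ {p q : List Z8}, (subZ p q).all Z8.isZero = true → evZ a s₀ p = evZ a s₀ q :=
    fun e => sub_eq_zero.1 (by rw [← evZ_subZ, evZ_of_all a s₀ e])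
  have e1 : ∀ i, ∑ j, evZ a s₀ (en₂ A i j) * u j = 0 := fun i => by
    have := congrFun hA i
    simp only [Matrix.mulVec, dotProduct, Matrix.map_apply, Matrix.of_apply, Pi.zero_apply,
      ← coe_evalRingHom, map_evZ] at this
    simpa only [coe_evalRingHom, eval_C, eval_X] using this
  have e2 : ∀ k j, ∑ i, evZ a s₀ (T.res Ex k j i) * u i = 0 := fun k j => by
    simp only [e0 (h1 k j _)]
    split_ifs
    · exact e1 _
    · exact e1 _
    · simp [evZ]
  obtain ⟨f, hf⟩ : ∃ f : Fin 24 → Fin 6 → ℂ, ∀ r j, f r j = ∑ i, evZ a s₀ (T.en r j i) * u i :=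
    ⟨_, fun _ _ => rfl⟩
  have e3 : ∀ k j, (if dnB k j then s₀ else 1) * (f (regK k 1) j - f (regK k 0) j) =
      (if upB k j then s₀ else 1) *
        (a ^ expo Ex k j * (f (regK k 2) (nj k j) - f (regK k 3) (nj k j))) := fun k j => by
    rw [← sub_eq_zero, ← e2 k j]
    simp only [hf, Tab.res, Tab.tw, evZ_subZ, evZ_shZ, evZ_map a s₀ (Z8.ev_mulA a ha _),
      ← Finset.sum_sub_distrib, Finset.mul_sum]
    refine Finset.sum_congr rfl fun i _ => ?_
    change _ * (evZ a s₀ (T.en (qd k false true) j i) * _ -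
      evZ a s₀ (T.en (qd k false false) j i) * _) - _ * (_ *
      (evZ a s₀ (T.en (qd k true true) _ i) * _ - evZ a s₀ (T.en (qd k true false) _ i) * _)) = _
    ring
  have hφ : ∀ x, Finsupp.linearCombination ℂ (TabF_g s₀ f) (Finsupp.single x 1) = TabF_g s₀ f x :=
    fun x => by rw [Finsupp.linearCombination_single, one_smul]
  refine ⟨Finsupp.linearCombination ℂ (TabF_g s₀ f), ?_, fun v => ?_, fun e => hu ?_⟩
  · change WT regK gapK w 22 19 ≤ LinearMap.ker _
    refine sup_le (LinearMap.range_le_ker_iff.2 (Finsupp.lhom_ext' fun x => LinearMap.ext_ring ?_))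
      ?_
    · obtain ⟨k, n⟩ := x
      obtain ⟨q, j, rfl⟩ := TabF_dec n
      have e4 := hE k j
      rw [← TabF_per (hw.per _) q, ← TabF_per (hw.per (regK k 2)) q, ← add_assoc] at e4
      have e5 : 6 * q + (j : ℕ) + (gapK (regK k 1) - gapK (regK k 2)) =
          6 * (q + ((if upB k j then 1 else 0) - if dnB k j then 1 else 0)) + (nj k j : ℕ) := by
        rw [gapK_eps, add_assoc, TabF_idx]
        ring
      simp only [LinearMap.comp_apply, Finsupp.lsingle_apply, d2T,
        Finsupp.linearCombination_single, one_smul, map_add, map_sub, map_smul, e4,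
        LinearMap.zero_apply, smul_eq_mul, one_mul]
      rw [TabF_g_eq _ _ _ q j rfl, TabF_g_eq _ _ _ q j rfl, TabF_g_eq _ _ _ _ _ e5,
        TabF_g_eq _ _ _ _ _ e5]
      have e6 : (if dnB k j then s₀ else 1) ≠ 0 := by
        split_ifs
        · exact h0
        · exact one_ne_zero
      apply mul_left_cancel₀ e6
      linear_combination (a ^ expo Ex k j * (f (regK k 2) (nj k j) - f (regK k 3) (nj k j))) *
        TabF_pow h0 q (upB k j) (dnB k j) - s₀ ^ q * e3 k j
    · rw [Finsupp.supported_eq_span_single, Submodule.span_le]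
      rintro _ ⟨⟨r, n⟩, hr, rfl⟩
      obtain ⟨q, j, rfl⟩ := TabF_dec n
      change Finsupp.linearCombination ℂ (TabF_g s₀ f) (Finsupp.single _ 1) = 0
      rw [hφ, TabF_g_eq _ _ _ q j rfl, hf]
      rcases hr with rfl | rfl
      · simp [e0 (h22 j _), TabF_ini]
      · simp [e0 (h19 j _), TabF_ini]
  · induction v using Finsupp.induction_linear with
    | zero => simp
    | add v v' a1 a2 => rw [map_add, map_add, map_add, a1, a2, mul_add]
    | single x c =>
      obtain ⟨r, n⟩ := x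
      obtain ⟨q, j, rfl⟩ := TabF_dec n
      rw [shT, Finsupp.lmapDomain_apply, Finsupp.mapDomain_single,
        Finsupp.linearCombination_single, Finsupp.linearCombination_single,
        TabF_g_eq _ _ _ q j rfl, TabF_g_eq _ _ _ (q + 1) j (by ring), zpow_add_one₀ h0,
        smul_eq_mul, smul_eq_mul]
      ring
  · have e4 : ∀ r j, f r j = 0 := fun r j => by
      have := hφ (r, (j : ℕ))
      rw [e, TabF_g_eq _ _ _ 0 j (by ring), zpow_zero, one_mul] at this
      exact this.symm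
    have e5 : ∀ (r : Fin 24) (j : Fin 6) (i : Fin 12),
        (∀ i', (subZ (T.en r j i') (ini r j i')).all Z8.isZero = true) →
        (∀ i' : Fin 12, ((r : ℕ) = 21 ∧ (i' : ℕ) = j) ∨ ((r : ℕ) = 23 ∧ (i' : ℕ) = j + 6) ↔
          i' = i) → u i = 0 := fun r j i a1 a2 => by
      have := e4 r j
      simp only [hf, e0 (a1 _), TabF_ini, a2, ite_mul, zero_mul, Finset.sum_ite_eq',
        Finset.mem_univ, if_true] at this
      exact (mul_eq_zero.1 this).resolve_left (pow_ne_zero 2 h0)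
    funext i
    by_cases hi : (i : ℕ) < 6
    · exact e5 21 ⟨i, hi⟩ i (h21 _) fun i' => by simp [Fin.ext_iff]
    · refine e5 23 ⟨i - 6, by omega⟩ i (h23 _) fun i' => ?_
      rw [Fin.ext_iff, show ((23 : Fin 24) : ℕ) = 23 from rfl]
      dsimp only
      omega

end Pool.Agent.MP_bc14e1_gt
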