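import Pool.Agent.MP_bc14e1_gt.Kn.Cx

/-! Soundness of the elimination table: generators and relations. -/

open Polynomial

namespace Pool.Agent.MP_bc14e1_gt

variable {Ex : List (List ℕ)} {A : List (List (List Z8))} {T : Tab} {a : ℂ}
  {w : Fin 24 → ℤ → ℂ}

/-- Polynomial combinations of the generators. -/
noncomputable def TabM_L (p : Fin 12 → ℂ[X]) : (Fin 24 × ℤ) →₀ ℂ :=
  ∑ i, aeval (shT (Fin 24) 6) (p i) (genK i)

theorem TabM_L_add (p q : Fin 12 → ℂ[X]) :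
    TabM_L (fun i => p i + q i) = TabM_L p + TabM_L q := by
  simp only [TabM_L, map_add, LinearMap.add_apply, Finset.sum_add_distrib]

theorem TabM_L_sub (p q : Fin 12 → ℂ[X]) :
    TabM_L (fun i => p i - q i) = TabM_L p - TabM_L q := by
  simp only [TabM_L, map_sub, LinearMap.sub_apply, Finset.sum_sub_distrib]

theorem TabM_L_mul (c : ℂ[X]) (p : Fin 12 → ℂ[X]) :
    TabM_L (fun i => c * p i) = aeval (shT (Fin 24) 6) c (TabM_L p) := by
  simp only [TabM_L, map_mul, Module.End.mul_apply, map_sum]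

theorem TabM_L_zero : TabM_L (fun _ => 0) = 0 := by
  simp only [TabM_L, map_zero, LinearMap.zero_apply, Finset.sum_const_zero]

theorem TabM_L_single (c : ℂ[X]) (j : Fin 12) :
    TabM_L (fun i => if i = j then c else 0) = aeval (shT (Fin 24) 6) c (genK j) := by
  rw [TabM_L, Finset.sum_eq_single j]
  · rw [if_pos rfl]
  · intro i _ hi
    rw [if_neg hi, map_zero, LinearMap.zero_apply]
  · intro h
    exact absurd (Finset.mem_univ j) h

theorem TabM_C (c : ℂ) (v : (Fin 24 × ℤ) →₀ ℂ) : aeval (shT (Fin 24) 6) (C c) v = c • v := by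
  rw [aeval_C, Module.algebraMap_end_apply]

theorem TabM_X_pow (n : ℕ) (v : (Fin 24 × ℤ) →₀ ℂ) :
    aeval (shT (Fin 24) 6) (X ^ n : ℂ[X]) v = (shT (Fin 24) 6 ^ n) v := by
  rw [map_pow, aeval_X]

theorem TabM_mem (hw : WOK regK gapK w 22 19 6) (p : ℂ[X]) {v : (Fin 24 × ℤ) →₀ ℂ}
    (hv : v ∈ WT regK gapK w 22 19) : aeval (shT (Fin 24) 6) p v ∈ WT regK gapK w 22 19 :=
  aeval_apply_smul_mem_of_le_comap hv p _ fun x hx => (hw.sh_WT x).2 hx

theorem TabM_pow_iff (hw : WOK regK gapK w 22 19 6) (n : ℕ) (v : (Fin 24 × ℤ) →₀ ℂ) :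
    (shT (Fin 24) 6 ^ n) v ∈ WT regK gapK w 22 19 ↔ v ∈ WT regK gapK w 22 19 := by
  induction n with
  | zero => rw [pow_zero, Module.End.one_apply]
  | succ n ih => rw [pow_succ', Module.End.mul_apply, hw.sh_WT, ih]

theorem TabM_pow_single (N : ℕ) (r : Fin 24) (n : ℤ) (c : ℂ) :
    (shT (Fin 24) 6 ^ N) (Finsupp.single (r, n) c) = Finsupp.single (r, n + 6 * N) c := by
  rw [shT_pow, shT_single]

theorem TabM_ite (b : Bool) : (if b then X else 1 : ℂ[X]) = X ^ b.toNat := by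
  cases b <;> simp

theorem TabM_idx (k : Fin 22) (j : Fin 6) :
    ((j : ℕ) : ℤ) + (gapK (regK k 1) - gapK (regK k 2)) + 6 * ((dnB k j).toNat : ℕ) =
      ((nj k j : ℕ) : ℤ) + 6 * ((upB k j).toNat : ℕ) := by
  revert k j
  decide

/-- The defect of the table at a region. -/
noncomputable def TabM_del (T : Tab) (a : ℂ) (r : Fin 24) (j : Fin 6) : (Fin 24 × ℤ) →₀ ℂ :=
  (shT (Fin 24) 6 ^ 2) (Finsupp.single (r, ((j : ℕ) : ℤ)) 1) -
    TabM_L fun i => evZ (C a) X (T.en r j i)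

theorem TabM_res (ha : a ^ 4 = -1) (k : Fin 22) (j : Fin 6) :
    TabM_L (fun i => evZ (C a) X (T.res Ex k j i)) =
      (shT (Fin 24) 6 ^ (dnB k j).toNat)
        (TabM_L (fun i => evZ (C a) X (T.en (qd k false true) j i)) -
          TabM_L fun i => evZ (C a) X (T.en (qd k false false) j i)) -
      a ^ expo Ex k j • (shT (Fin 24) 6 ^ (upB k j).toNat)
        (TabM_L (fun i => evZ (C a) X (T.en (qd k true true) (nj k j) i)) -
          TabM_L fun i => evZ (C a) X (T.en (qd k true false) (nj k j) i)) := by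
  have ha' : (C a : ℂ[X]) ^ 4 = -1 := by rw [← C_pow, ha, C_neg, C_1]
  rw [← TabM_L_sub, ← TabM_L_sub, ← TabM_X_pow, ← TabM_X_pow, ← TabM_C, ← TabM_L_mul,
    ← TabM_L_mul, ← TabM_L_mul, ← TabM_L_sub]
  refine congrArg TabM_L (funext fun i => ?_)
  rw [Tab.res, Tab.tw, evZ_subZ, evZ_shZ, evZ_shZ, evZ_subZ,
    evZ_map _ _ (Z8.ev_mulA _ ha' _), evZ_subZ, TabM_ite, TabM_ite, C_pow]
  ring

theorem TabM_key (ha : a ^ 4 = -1) (hw : WOK regK gapK w 22 19 6) (hE : WE w a Ex) (k : Fin 22)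
    (j : Fin 6) : (shT (Fin 24) 6 ^ (dnB k j).toNat)
        (TabM_del T a (qd k false true) j - TabM_del T a (qd k false false) j) -
      a ^ expo Ex k j • (shT (Fin 24) 6 ^ (upB k j).toNat)
        (TabM_del T a (qd k true true) (nj k j) - TabM_del T a (qd k true false) (nj k j)) +
      TabM_L (fun i => evZ (C a) X (T.res Ex k j i)) ∈ WT regK gapK w 22 19 := by
  have h1 : d2T regK gapK w (Finsupp.single (k, ((j : ℕ) : ℤ)) 1) ∈ WT regK gapK w 22 19 :=
    Submodule.mem_sup_left (LinearMap.mem_range_self _ _)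
  rw [d2T, Finsupp.linearCombination_single, one_smul] at h1
  dsimp only at h1
  rw [hE k j] at h1
  have h2 := Submodule.neg_mem _
    ((TabM_pow_iff hw 2 _).2 ((TabM_pow_iff hw (dnB k j).toNat _).2 h1))
  have h3 : ∀ r : Fin 24, (shT (Fin 24) 6 ^ (dnB k j).toNat) (Finsupp.single
      (r, ((j : ℕ) : ℤ) + (gapK (regK k 1) - gapK (regK k 2))) 1) =
      (shT (Fin 24) 6 ^ (upB k j).toNat) (Finsupp.single (r, ((nj k j : ℕ) : ℤ)) 1) := fun r => by
    rw [TabM_pow_single, TabM_pow_single, TabM_idx]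
  have h4 : ∀ (n : ℕ) (v : (Fin 24 × ℤ) →₀ ℂ), (shT (Fin 24) 6 ^ 2) ((shT (Fin 24) 6 ^ n) v) =
      (shT (Fin 24) 6 ^ n) ((shT (Fin 24) 6 ^ 2) v) := fun n v => by
    rw [← Module.End.mul_apply, ← Module.End.mul_apply, ← pow_add, ← pow_add, add_comm]
  simp only [map_add, map_sub, map_smul, h3, h4] at h2
  have e0 : regK k 0 = qd k false false := rfl
  have e1 : regK k 1 = qd k false true := rfl
  have e2 : regK k 2 = qd k true true := rfl
  have e3 : regK k 3 = qd k true false := rfl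
  rw [e0, e1, e2, e3] at h2
  rw [TabM_res ha]
  simp only [TabM_del, map_sub]
  convert h2 using 1
  module

theorem TabM_ok_res (h : tabOK Ex A T = true) (k : Fin 22) (j : Fin 6) (i : Fin 12) :
    evZ (C a) X (T.res Ex k j i) = evZ (C a) (X : ℂ[X])
      (if (k : ℕ) = 19 then en₂ A (j.castLE (by norm_num)) i
        else if (k : ℕ) = 21 then en₂ A (j.addNat 6) i else []) := by
  rw [tabOK, Bool.and_eq_true] at h
  have h1 := List.all_eq_true.1 (List.all_eq_true.1 (List.all_eq_true.1 h.1 k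
    (List.mem_finRange k)) j (List.mem_finRange j)) i (List.mem_finRange i)
  have h2 := evZ_of_all (C a) (X : ℂ[X]) h1
  rwa [evZ_subZ, sub_eq_zero] at h2

theorem TabM_ok_ini (h : tabOK Ex A T = true) {r : Fin 24}
    (hr : r ∈ ([19, 21, 22, 23] : List (Fin 24))) (j : Fin 6) (i : Fin 12) :
    evZ (C a) X (T.en r j i) = evZ (C a) (X : ℂ[X]) (ini r j i) := by
  rw [tabOK, Bool.and_eq_true] at h
  have h1 := List.all_eq_true.1 (List.all_eq_true.1 (List.all_eq_true.1 h.2 r hr) j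
    (List.mem_finRange j)) i (List.mem_finRange i)
  have h2 := evZ_of_all (C a) (X : ℂ[X]) h1
  rwa [evZ_subZ, sub_eq_zero] at h2

theorem TabM_ev_ini (r : Fin 24) (j : Fin 6) (i : Fin 12) :
    evZ (C a) (X : ℂ[X]) (ini r j i) =
      if ((r : ℕ) = 21 ∧ (i : ℕ) = j) ∨ ((r : ℕ) = 23 ∧ (i : ℕ) = j + 6) then X ^ 2 else 0 := by
  rw [ini]
  split_ifs
  · simp [ofInts, evZ, Z8.ev, pow_two]
  · rfl

theorem TabM_base (h : tabOK Ex A T = true) {r : Fin 24}
    (hr : r ∈ ([19, 21, 22, 23] : List (Fin 24))) (j : Fin 6) :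
    TabM_del T a r j ∈ WT regK gapK w 22 19 := by
  have h0 : ∀ r : Fin 24, r = 22 ∨ r = 19 → (shT (Fin 24) 6 ^ 2)
      (Finsupp.single (r, ((j : ℕ) : ℤ)) 1) - TabM_L (fun i => evZ (C a) X (ini r j i)) ∈
        WT regK gapK w 22 19 := fun r hr => by
    have h1 : (fun i => evZ (C a) (X : ℂ[X]) (ini r j i)) = fun _ => 0 := funext fun i => by
      rw [TabM_ev_ini, if_neg]
      rcases hr with rfl | rfl <;> simp
    rw [h1, TabM_L_zero, sub_zero, TabM_pow_single]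
    exact Submodule.mem_sup_right (Finsupp.single_mem_supported ℂ _ hr)
  have h1 : ∀ (r : Fin 24) (i₀ : Fin 12), (∀ i : Fin 12, ((r : ℕ) = 21 ∧ (i : ℕ) = j) ∨
      ((r : ℕ) = 23 ∧ (i : ℕ) = j + 6) ↔ i = i₀) →
      genK i₀ = Finsupp.single (r, ((j : ℕ) : ℤ)) 1 → (shT (Fin 24) 6 ^ 2)
      (Finsupp.single (r, ((j : ℕ) : ℤ)) 1) - TabM_L (fun i => evZ (C a) X (ini r j i)) ∈
        WT regK gapK w 22 19 := fun r i₀ hi hg => by
    have h1 : (fun i => evZ (C a) (X : ℂ[X]) (ini r j i)) =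
        fun i => if i = i₀ then X ^ 2 else 0 := funext fun i => by
      rw [TabM_ev_ini]
      exact if_congr (hi i) rfl rfl
    rw [h1, TabM_L_single, TabM_X_pow, hg, sub_self]
    exact Submodule.zero_mem _
  have hj := j.2
  rw [TabM_del, funext fun i => TabM_ok_ini h hr j i]
  simp only [List.mem_cons, List.not_mem_nil, or_false] at hr
  rcases hr with rfl | rfl | rfl | rfl
  · exact h0 _ (Or.inr rfl)
  · refine h1 _ (j.castLE (by norm_num)) (fun i => ?_) ?_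
    · rw [Fin.ext_iff, Fin.val_castLE]
      simp
    · rw [genK, if_pos (by rw [Fin.val_castLE]; exact hj), Fin.val_castLE]
  · exact h0 _ (Or.inl rfl)
  · refine h1 _ (j.addNat 6) (fun i => ?_) ?_
    · rw [Fin.ext_iff, Fin.val_addNat]
      simp
    · rw [genK, if_neg (by rw [Fin.val_addNat]; omega), Fin.val_addNat]
      simp

theorem TabM_lt (k : Fin 22) (h1 : (k : ℕ) ≠ 19) (h2 : (k : ℕ) ≠ 21) (x y : Bool) :
    (x = false ∧ y = true) ∨ (qd k x y : ℕ) < k ∨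
      qd k x y ∈ ([19, 21, 22, 23] : List (Fin 24)) := by
  revert k x y
  decide

theorem TabM_all (h : tabOK Ex A T = true) (ha : a ^ 4 = -1) (hw : WOK regK gapK w 22 19 6)
    (hE : WE w a Ex) (n : ℕ) : ∀ r : Fin 24, (r : ℕ) < n → ∀ j,
      TabM_del T a r j ∈ WT regK gapK w 22 19 := by
  induction n with
  | zero => exact fun r hr => absurd hr (Nat.not_lt_zero _)
  | succ n ih =>
    intro r hr j
    by_cases hb : r ∈ ([19, 21, 22, 23] : List (Fin 24))
    · exact TabM_base h hb j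
    simp only [List.mem_cons, List.not_mem_nil, or_false, not_or, Fin.ext_iff] at hb
    have h19 : (r : ℕ) ≠ 19 := hb.1
    have h21 : (r : ℕ) ≠ 21 := hb.2.1
    have h22 : (r : ℕ) ≠ 22 := hb.2.2.1
    have h23 : (r : ℕ) ≠ 23 := hb.2.2.2
    have hr2 := r.2
    obtain ⟨k, rfl⟩ : ∃ k : Fin 22, r = qd k false true := ⟨⟨r, by omega⟩, rfl⟩
    have hk : (qd k false true : ℕ) = k := rfl
    rw [hk] at h19 h21 hr
    have h1 : ∀ x y : Bool, ¬ (x = false ∧ y = true) → ∀ j,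
        TabM_del T a (qd k x y) j ∈ WT regK gapK w 22 19 := fun x y hxy j => by
      rcases TabM_lt k h19 h21 x y with h2 | h2 | h2
      · exact absurd h2 hxy
      · exact ih _ (by omega) j
      · exact TabM_base h h2 j
    have h2 := TabM_key (T := T) ha hw hE k j
    have h3 : (fun i => evZ (C a) (X : ℂ[X]) (T.res Ex k j i)) = fun _ => 0 := funext fun i => by
      rw [TabM_ok_res h, if_neg h19, if_neg h21]
      rfl
    rw [h3, TabM_L_zero, add_zero] at h2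
    have h4 := (Submodule.sub_mem_iff_left _ (Submodule.smul_mem _ _ ((TabM_pow_iff hw _ _).2
      (Submodule.sub_mem _ (h1 true true (by simp) _) (h1 true false (by simp) _))))).1 h2
    exact (Submodule.sub_mem_iff_left _ (h1 false false (by simp) j)).1
      ((TabM_pow_iff hw _ _).1 h4)

theorem TabM_res_mem (h : tabOK Ex A T = true) (ha : a ^ 4 = -1) (hw : WOK regK gapK w 22 19 6)
    (hE : WE w a Ex) (k : Fin 22) (j : Fin 6) :
    TabM_L (fun i => evZ (C a) X (T.res Ex k j i)) ∈ WT regK gapK w 22 19 := by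
  have h1 := fun r : Fin 24 => TabM_all h ha hw hE 24 r r.2
  exact (Submodule.add_mem_iff_right _ (Submodule.sub_mem _
    ((TabM_pow_iff hw _ _).2 (Submodule.sub_mem _ (h1 _ _) (h1 _ _)))
    (Submodule.smul_mem _ _ ((TabM_pow_iff hw _ _).2
      (Submodule.sub_mem _ (h1 _ _) (h1 _ _)))))).1 (TabM_key ha hw hE k j)

theorem TabM_eval (s₀ : ℂ) (p : ℂ[X]) (v : (Fin 24 × ℤ) →₀ ℂ) :
    aeval (shT (Fin 24) 6) p v - p.eval s₀ • v ∈
      LinearMap.range (shT (Fin 24) 6 - s₀ • (1 : Module.End ℂ ((Fin 24 × ℤ) →₀ ℂ))) := by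
  obtain ⟨q, hq⟩ := X_sub_C_dvd_sub_C_eval (p := p) (a := s₀)
  refine ⟨aeval (shT (Fin 24) 6) q v, ?_⟩
  rw [← TabM_C, ← LinearMap.sub_apply, ← map_sub (aeval (R := ℂ) (shT (Fin 24) 6)), hq, map_mul,
    map_sub, aeval_X, aeval_C, Algebra.algebraMap_eq_smul_one, Module.End.mul_apply]

theorem TabM_L_eval (s₀ : ℂ) (p : Fin 12 → ℂ[X]) :
    TabM_L p - ∑ i, (p i).eval s₀ • genK i ∈
      LinearMap.range (shT (Fin 24) 6 - s₀ • (1 : Module.End ℂ ((Fin 24 × ℤ) →₀ ℂ))) := by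
  rw [TabM_L, ← Finset.sum_sub_distrib]
  exact Submodule.sum_mem _ fun i _ => TabM_eval s₀ _ _

theorem tab_gen (h : tabOK Ex A T = true) (ha : a ^ 4 = -1) (hw : WOK regK gapK w 22 19 6)
    (hE : WE w a Ex) (r : Fin 24) (j : Fin 6) :
    (shT (Fin 24) 6 ^ 2) (Finsupp.single (r, ((j : ℕ) : ℤ)) 1) -
      ∑ i, aeval (shT (Fin 24) 6) (evZ (C a) X (T.en r j i)) (genK i) ∈ WT regK gapK w 22 19 := by
  exact TabM_all h ha hw hE 24 r r.2 j

theorem tab_row (h : tabOK Ex A T = true) (ha : a ^ 4 = -1) (hw : WOK regK gapK w 22 19 6)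
    (hE : WE w a Ex) (k : Fin 12) :
    ∑ i, aeval (shT (Fin 24) 6) (evZ (C a) X (en₂ A k i)) (genK i) ∈ WT regK gapK w 22 19 := by
  have hk := k.2
  by_cases h6 : (k : ℕ) < 6
  · have h1 := TabM_res_mem h ha hw hE 19 ⟨k, h6⟩
    rw [funext fun i => TabM_ok_res h 19 ⟨k, h6⟩ i] at h1
    exact h1
  · have h1 := TabM_res_mem h ha hw hE 21 ⟨k - 6, by omega⟩
    rw [funext fun i => TabM_ok_res h 21 ⟨k - 6, by omega⟩ i] at h1
    have h2 : (⟨k - 6, by omega⟩ : Fin 6).addNat 6 = k := Fin.ext (by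
      rw [Fin.val_addNat]
      dsimp only
      omega)
    rw [h2] at h1
    exact h1

theorem tab_span (h : tabOK Ex A T = true) (ha : a ^ 4 = -1) (hw : WOK regK gapK w 22 19 6)
    (hE : WE w a Ex) (v : (Fin 24 × ℤ) →₀ ℂ) : ∃ (n : ℕ) (p : Fin 12 → ℂ[X]),
    (shT (Fin 24) 6 ^ n) v - ∑ i, aeval (shT (Fin 24) 6) (p i) (genK i) ∈
      WT regK gapK w 22 19 := by
  change ∃ (n : ℕ) (p : Fin 12 → ℂ[X]), (shT (Fin 24) 6 ^ n) v - TabM_L p ∈ _
  induction v using Finsupp.induction_linear with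
  | zero => exact ⟨0, fun _ => 0, by rw [TabM_L_zero, map_zero, sub_zero]; exact zero_mem _⟩
  | add v v' hv hv' =>
    obtain ⟨n, p, hp⟩ := hv
    obtain ⟨n', p', hp'⟩ := hv'
    refine ⟨n + n', fun i => X ^ n' * p i + X ^ n * p' i, ?_⟩
    have h1 := Submodule.add_mem _ ((TabM_pow_iff hw n' _).2 hp) ((TabM_pow_iff hw n _).2 hp')
    rw [map_sub, map_sub, ← Module.End.mul_apply, ← Module.End.mul_apply (shT (Fin 24) 6 ^ n),
      ← pow_add, ← pow_add, add_comm n' n] at h1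
    rw [TabM_L_add, TabM_L_mul, TabM_L_mul, TabM_X_pow, TabM_X_pow, map_add]
    rwa [add_sub_add_comm]
  | single x c =>
    obtain ⟨r, n⟩ := x
    obtain ⟨j, N, M, hj⟩ : ∃ (j : Fin 6) (N M : ℕ), n + 6 * N = (j : ℕ) + 6 * M :=
      ⟨⟨(n % 6).toNat, by omega⟩, (-(n / 6)).toNat, (n / 6).toNat, by dsimp only; omega⟩
    refine ⟨N + 2, fun i => C c * (X ^ M * evZ (C a) X (T.en r j i)), ?_⟩
    have h1 := Submodule.smul_mem _ c ((TabM_pow_iff hw M _).2 (TabM_all h ha hw hE 24 r r.2 j))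
    rw [TabM_del, map_sub, smul_sub, TabM_pow_single, TabM_pow_single, Finsupp.smul_single,
      smul_eq_mul, mul_one] at h1
    rw [TabM_L_mul, TabM_L_mul, TabM_C, TabM_X_pow, TabM_pow_single]
    have h2 : n + 6 * ((N + 2 : ℕ) : ℤ) = ((j : ℕ) : ℤ) + 6 * ((2 : ℕ) : ℤ) + 6 * M := by
      push_cast
      omega
    rwa [h2]

theorem tab_kill (h : tabOK Ex A T = true) (ha : a ^ 4 = -1) (hw : WOK regK gapK w 22 19 6)
    (hE : WE w a Ex) {B : Matrix (Fin 12) (Fin 12) ℂ[X]} {c : ℂ[X]}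
    (hB : B * (Matrix.of fun i j => evZ (C a) X (en₂ A i j)) = c • 1) (v : (Fin 24 × ℤ) →₀ ℂ) :
    aeval (shT (Fin 24) 6) c v ∈ WT regK gapK w 22 19 := by
  have h1 : ∀ j, aeval (shT (Fin 24) 6) c (genK j) ∈ WT regK gapK w 22 19 := fun j => by
    have h2 : (fun i => if i = j then c else 0) =
        fun i => ∑ k, B j k * evZ (C a) X (en₂ A k i) := funext fun i => by
      have h3 := congrFun (congrFun hB j) i
      rw [Matrix.mul_apply, Matrix.smul_apply, Matrix.one_apply, smul_eq_mul, mul_ite, mul_one,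
        mul_zero] at h3
      exact (if_congr eq_comm rfl rfl).trans h3.symm
    rw [← TabM_L_single, h2, TabM_L]
    simp only [map_sum, LinearMap.sum_apply]
    rw [Finset.sum_comm]
    refine Submodule.sum_mem _ fun k _ => ?_
    have h3 := TabM_mem hw (B j k) (tab_row h ha hw hE k)
    rw [map_sum] at h3
    simpa only [map_mul, Module.End.mul_apply] using h3
  obtain ⟨n, p, hp⟩ := tab_span h ha hw hE v
  have h2 := TabM_mem hw c hp
  have h3 : ∀ (q : ℂ[X]) (u : (Fin 24 × ℤ) →₀ ℂ),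
      aeval (shT (Fin 24) 6) c (aeval (shT (Fin 24) 6) q u) =
        aeval (shT (Fin 24) 6) q (aeval (shT (Fin 24) 6) c u) := fun q u => by
    rw [← Module.End.mul_apply, ← Module.End.mul_apply, ← map_mul, ← map_mul, mul_comm]
  rw [map_sub, map_sum, ← TabM_X_pow, h3, TabM_X_pow] at h2
  refine (TabM_pow_iff hw n _).1 ((Submodule.sub_mem_iff_left _ ?_).1 h2)
  exact Submodule.sum_mem _ fun i _ => by rw [h3]; exact TabM_mem hw _ (h1 i)

theorem tab_rank (h : tabOK Ex A T = true) (ha : a ^ 4 = -1) (hw : WOK regK gapK w 22 19 6)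
    (hE : WE w a Ex) {s₀ : ℂ} (h0 : s₀ ≠ 0) (hr : ∀ u : Fin 12 → ℂ, ∃ (c : Fin 12 → ℂ) (t : ℂ),
      u = Matrix.vecMul c ((Matrix.of fun i j => evZ (C a) X (en₂ A i j)).map (eval s₀)) +
        Pi.single 11 t) (v : (Fin 24 × ℤ) →₀ ℂ) : ∃ (t : ℂ) (u : (Fin 24 × ℤ) →₀ ℂ),
    v - t • genK 11 - (shT (Fin 24) 6 u - s₀ • u) ∈ WT regK gapK w 22 19 := by
  obtain ⟨n, p, hp⟩ := tab_span h ha hw hE v
  obtain ⟨c, t, hc⟩ := hr fun i => (p i).eval s₀
  set W' := WT regK gapK w 22 19 ⊔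
    LinearMap.range (shT (Fin 24) 6 - s₀ • (1 : Module.End ℂ ((Fin 24 × ℤ) →₀ ℂ))) with hW'
  have h1 : ∀ k, ∑ i, (evZ (C a) X (en₂ A k i)).eval s₀ • genK i ∈ W' := fun k => by
    have h2 : TabM_L (fun i => evZ (C a) X (en₂ A k i)) ∈ W' :=
      Submodule.mem_sup_left (tab_row h ha hw hE k)
    have h3 : _ ∈ W' :=
      Submodule.mem_sup_right (TabM_L_eval s₀ fun i => evZ (C a) X (en₂ A k i))
    exact (Submodule.sub_mem_iff_right _ h2).1 h3
  have h2 : ∑ i, (p i).eval s₀ • genK i =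
      ∑ k, c k • ∑ i, (evZ (C a) X (en₂ A k i)).eval s₀ • genK i + t • genK 11 := by
    have h3 : ∀ i, (p i).eval s₀ = ∑ k, c k * (evZ (C a) X (en₂ A k i)).eval s₀ +
        (Pi.single 11 t : Fin 12 → ℂ) i := fun i => congrFun hc i
    simp only [h3, add_smul, Finset.sum_add_distrib, Finset.sum_smul, Finset.smul_sum, mul_smul]
    rw [Finset.sum_comm]
    refine congrArg _ ?_
    rw [Finset.sum_eq_single 11, Pi.single_eq_same]
    · intro i _ hi
      rw [Pi.single_eq_of_ne hi, zero_smul]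
    · intro h4
      exact absurd (Finset.mem_univ _) h4
  have h3 : (shT (Fin 24) 6 ^ n) v - TabM_L p ∈ W' := Submodule.mem_sup_left hp
  have h4 : _ ∈ W' := Submodule.mem_sup_right (TabM_L_eval s₀ p)
  have h5 : _ ∈ W' := Submodule.mem_sup_right (TabM_eval s₀ (X ^ n) v)
  rw [TabM_X_pow, eval_pow, eval_X] at h5
  rw [h2] at h4
  have h6 := Submodule.smul_mem _ (s₀ ^ n)⁻¹ (Submodule.add_mem _ (Submodule.sub_mem _
    (Submodule.add_mem _ h3 h4) h5) (Submodule.sum_mem _ fun k (_ : k ∈ Finset.univ) =>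
      Submodule.smul_mem _ (c k) (h1 k)))
  have h7 : v - ((s₀ ^ n)⁻¹ * t) • genK 11 ∈ W' := by
    have h8 : v = (s₀ ^ n)⁻¹ • s₀ ^ n • v := by
      rw [smul_smul, inv_mul_cancel₀ (pow_ne_zero n h0), one_smul]
    have h9 : ∀ x y z g : (Fin 24 × ℤ) →₀ ℂ, x - y + (y - (z + t • g)) - (x - s₀ ^ n • v) + z =
        s₀ ^ n • v - t • g := fun x y z g => by abel
    rw [h9, smul_sub, ← h8, smul_smul] at h6
    exact h6
  obtain ⟨y, hy, z, ⟨u, rfl⟩, hz⟩ := Submodule.mem_sup.1 h7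
  refine ⟨(s₀ ^ n)⁻¹ * t, u, ?_⟩
  rw [← hz, LinearMap.sub_apply, LinearMap.smul_apply, Module.End.one_apply, add_sub_cancel_right]
  exact hy

end Pool.Agent.MP_bc14e1_gt
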