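import Pool.Agent.MP_bc14e1_gt.Kn.Def

/-! The colourings of the diagram. -/

namespace Pool.Agent.MP_bc14e1_gt

theorem Un_lin (x0 x1 x2 x3 x4 x5 x6 x7 x8 x9 x10 x11
    x12 x13 x14 x15 x16 x17 x18 x19 x20 x21 x22 x23 : ℤ)
    (h0 : x21 = x0 - x22 + x19)
    (h1 : x21 = x1 - x22 + x0)
    (h2 : x1 = x2 - x23 + x21)
    (h3 : x1 = x3 - x23 + x2)
    (h4 : x3 = x4 - x22 + x1)
    (h5 : x3 = x5 - x22 + x4)
    (h6 : x3 = x6 - x22 + x5)
    (h7 : x6 = x7 - x23 + x3)
    (h8 : x6 = x8 - x23 + x7)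
    (h9 : x8 = x9 - x22 + x6)
    (h10 : x8 = x10 - x22 + x9)
    (h11 : x10 = x11 - x23 + x8)
    (h12 : x10 = x12 - x23 + x11)
    (h13 : x12 = x13 - x22 + x10)
    (h14 : x12 = x14 - x22 + x13)
    (h15 : x14 = x15 - x23 + x12)
    (h16 : x14 = x16 - x23 + x15)
    (h17 : x14 = x17 - x23 + x16)
    (h18 : x17 = x18 - x22 + x14)
    (h19 : x17 = x19 - x22 + x18)
    (h20 : x19 = x20 - x23 + x17)
    (h21 : x19 = x21 - x23 + x20) :
    x0 = x22 + (x19 - x22) * 1 ∧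
    x1 = x22 + (x19 - x22) * 1 ∧
    x2 = x22 + (x19 - x22) * 2 ∧
    x3 = x22 + (x19 - x22) * 2 ∧
    x4 = x22 + (x19 - x22) * 1 ∧
    x5 = x22 + (x19 - x22) * 1 ∧
    x6 = x22 + (x19 - x22) * 1 ∧
    x7 = x22 + (x19 - x22) * 2 ∧
    x8 = x22 + (x19 - x22) * 2 ∧
    x9 = x22 + (x19 - x22) * 1 ∧
    x10 = x22 + (x19 - x22) * 1 ∧
    x11 = x22 + (x19 - x22) * 2 ∧
    x12 = x22 + (x19 - x22) * 2 ∧
    x13 = x22 + (x19 - x22) * 1 ∧
    x14 = x22 + (x19 - x22) * 1 ∧
    x15 = x22 + (x19 - x22) * 2 ∧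
    x16 = x22 + (x19 - x22) * 2 ∧
    x17 = x22 + (x19 - x22) * 2 ∧
    x18 = x22 + (x19 - x22) * 1 ∧
    x19 = x22 + (x19 - x22) * 1 ∧
    x20 = x22 + (x19 - x22) * 2 ∧
    x21 = x22 + (x19 - x22) * 2 ∧
    x22 = x22 + (x19 - x22) * 0 ∧
    x23 = x22 + (x19 - x22) * 3 := by
  have e19 : x19 = x22 + (x19 - x22) * 1 := by ring
  have e22 : x22 = x22 + (x19 - x22) * 0 := by ring
  have e21 : x21 = x22 + (x19 - x22) * 2 := by omega
  have e23 : x23 = x22 + (x19 - x22) * 3 := by omega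
  have e0 : x0 = x22 + (x19 - x22) * 1 := by linear_combination e21 + e22 - e19 - h0
  have e1 : x1 = x22 + (x19 - x22) * 1 := by linear_combination e21 + e22 - e0 - h1
  have e2 : x2 = x22 + (x19 - x22) * 2 := by linear_combination e1 + e23 - e21 - h2
  have e3 : x3 = x22 + (x19 - x22) * 2 := by linear_combination e1 + e23 - e2 - h3
  have e4 : x4 = x22 + (x19 - x22) * 1 := by linear_combination e3 + e22 - e1 - h4
  have e5 : x5 = x22 + (x19 - x22) * 1 := by linear_combination e3 + e22 - e4 - h5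
  have e6 : x6 = x22 + (x19 - x22) * 1 := by linear_combination e3 + e22 - e5 - h6
  have e7 : x7 = x22 + (x19 - x22) * 2 := by linear_combination e6 + e23 - e3 - h7
  have e8 : x8 = x22 + (x19 - x22) * 2 := by linear_combination e6 + e23 - e7 - h8
  have e9 : x9 = x22 + (x19 - x22) * 1 := by linear_combination e8 + e22 - e6 - h9
  have e10 : x10 = x22 + (x19 - x22) * 1 := by linear_combination e8 + e22 - e9 - h10
  have e11 : x11 = x22 + (x19 - x22) * 2 := by linear_combination e10 + e23 - e8 - h11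
  have e12 : x12 = x22 + (x19 - x22) * 2 := by linear_combination e10 + e23 - e11 - h12
  have e13 : x13 = x22 + (x19 - x22) * 1 := by linear_combination e12 + e22 - e10 - h13
  have e14 : x14 = x22 + (x19 - x22) * 1 := by linear_combination e12 + e22 - e13 - h14
  have e15 : x15 = x22 + (x19 - x22) * 2 := by linear_combination e14 + e23 - e12 - h15
  have e16 : x16 = x22 + (x19 - x22) * 2 := by linear_combination e14 + e23 - e15 - h16
  have e17 : x17 = x22 + (x19 - x22) * 2 := by linear_combination e14 + e23 - e16 - h17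
  have e18 : x18 = x22 + (x19 - x22) * 1 := by linear_combination e17 + e22 - e14 - h18
  have e20 : x20 = x22 + (x19 - x22) * 2 := by linear_combination e19 + e23 - e17 - h20
  exact ⟨e0, e1, e2, e3, e4, e5, e6, e7, e8, e9, e10, e11,
    e12, e13, e14, e15, e16, e17, e18, e19, e20, e21, e22, e23⟩

theorem gapK_univ (n : Fin 24 → ℤ)
    (h : ∀ c, n (regK c 0) = n (regK c 1) - n (regK c 2) + n (regK c 3)) :
    ∃ a b, ∀ r, n r = a + b * gapK r := by
  obtain ⟨e0, e1, e2, e3, e4, e5, e6, e7, e8, e9, e10, e11,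
    e12, e13, e14, e15, e16, e17, e18, e19, e20, e21, e22, e23⟩ :=
    Un_lin (n 0) (n 1) (n 2) (n 3) (n 4) (n 5) (n 6) (n 7) (n 8) (n 9) (n 10) (n 11)
      (n 12) (n 13) (n 14) (n 15) (n 16) (n 17) (n 18) (n 19) (n 20) (n 21) (n 22) (n 23)
      (h 0) (h 1) (h 2) (h 3) (h 4) (h 5) (h 6) (h 7) (h 8) (h 9) (h 10)
      (h 11) (h 12) (h 13) (h 14) (h 15) (h 16) (h 17) (h 18) (h 19) (h 20) (h 21)
  refine ⟨n 22, n 19 - n 22, fun r => ?_⟩
  fin_cases r
  · exact e0
  · exact e1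
  · exact e2
  · exact e3
  · exact e4
  · exact e5
  · exact e6
  · exact e7
  · exact e8
  · exact e9
  · exact e10
  · exact e11
  · exact e12
  · exact e13
  · exact e14
  · exact e15
  · exact e16
  · exact e17
  · exact e18
  · exact e19
  · exact e20
  · exact e21
  · exact e22
  · exact e23

theorem Un_pow {R : Type} [CommRing R] (k : Fin 22) :
    ((om R ^ (gapK (regK k 1) - gapK (regK k 2)) : (Eis R)ˣ) : Eis R) =
      if epsB k then (⟨0, 1⟩ : Eis R) else ⟨1, -1⟩ := by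
  rw [gapK_eps]
  split_ifs
  · rw [zpow_one]; rfl
  · rw [zpow_neg_one]; rfl

theorem colA_col : IsCol regK gapK colA ∧ colA 22 = 0 ∧ colA 19 = 0 := by
  refine ⟨fun k => ?_, rfl, rfl⟩
  rw [Un_pow]
  revert k
  decide +kernel

theorem colB_col : IsCol regK gapK colB ∧ colB 22 = 0 ∧ colB 19 = 0 := by
  refine ⟨fun k => ?_, rfl, rfl⟩
  rw [Un_pow]
  revert k
  decide +kernel

theorem Un_zero {R : Type} [CommRing R] (d : Fin 24 → Eis R) (h : IsCol regK gapK d)
    (d19 : d 19 = 0) (d21 : d 21 = 0) (d22 : d 22 = 0) (d23 : d 23 = 0) (r : Fin 24) :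
    d r = 0 := by
  have e : ∀ k, d (regK k 0) = 0 → d (regK k 2) = 0 → d (regK k 3) = 0 → d (regK k 1) = 0 := by
    intro k h0 h2 h3
    have := h k
    rw [h0, h2, h3] at this
    simpa using this
  have d0 : d 0 = 0 := e 0 d21 d22 d19
  have d1 : d 1 = 0 := e 1 d21 d22 d0
  have d2 : d 2 = 0 := e 2 d1 d23 d21
  have d3 : d 3 = 0 := e 3 d1 d23 d2
  have d4 : d 4 = 0 := e 4 d3 d22 d1
  have d5 : d 5 = 0 := e 5 d3 d22 d4
  have d6 : d 6 = 0 := e 6 d3 d22 d5
  have d7 : d 7 = 0 := e 7 d6 d23 d3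
  have d8 : d 8 = 0 := e 8 d6 d23 d7
  have d9 : d 9 = 0 := e 9 d8 d22 d6
  have d10 : d 10 = 0 := e 10 d8 d22 d9
  have d11 : d 11 = 0 := e 11 d10 d23 d8
  have d12 : d 12 = 0 := e 12 d10 d23 d11
  have d13 : d 13 = 0 := e 13 d12 d22 d10
  have d14 : d 14 = 0 := e 14 d12 d22 d13
  have d15 : d 15 = 0 := e 15 d14 d23 d12
  have d16 : d 16 = 0 := e 16 d14 d23 d15
  have d17 : d 17 = 0 := e 17 d14 d23 d16
  have d18 : d 18 = 0 := e 18 d17 d22 d14
  have d20 : d 20 = 0 := e 20 d19 d23 d17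
  fin_cases r
  · exact d0
  · exact d1
  · exact d2
  · exact d3
  · exact d4
  · exact d5
  · exact d6
  · exact d7
  · exact d8
  · exact d9
  · exact d10
  · exact d11
  · exact d12
  · exact d13
  · exact d14
  · exact d15
  · exact d16
  · exact d17
  · exact d18
  · exact d19
  · exact d20
  · exact d21
  · exact d22
  · exact d23

theorem col_univ (c : Fin 24 → Eis ℤ) (h : IsCol regK gapK c) (h0 : c 22 = 0) (h1 : c 19 = 0) :
    ∃ a b, ∀ r, c r = a * colA r + b * colB r := by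
  refine ⟨c 21, c 23, fun r => ?_⟩
  have a21 : colA 21 = 1 := rfl
  have a23 : colA 23 = 0 := rfl
  have b21 : colB 21 = 0 := rfl
  have b23 : colB 23 = 1 := rfl
  have := Un_zero (fun r => c r - (c 21 * colA r + c 23 * colB r)) (fun k => by
      have e1 := h k
      have e2 := colA_col.1 k
      have e3 := colB_col.1 k
      linear_combination e1 - c 21 * e2 - c 23 * e3)
    (by simp [h1, colA_col.2.2, colB_col.2.2]) (by simp [a21, b21])
    (by simp [h0, colA_col.2.1, colB_col.2.1]) (by simp [a23, b23]) r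
  exact sub_eq_zero.1 this

theorem Un_add (x y : Eis ℤ) : red8 (x + y) = red8 x + red8 y := by
  ext <;> simp [red8]

theorem Un_sub (x y : Eis ℤ) : red8 (x - y) = red8 x - red8 y := by
  ext <;> simp [red8]

theorem Un_mul (x y : Eis ℤ) : red8 (x * y) = red8 x * red8 y := by
  ext <;> simp [red8]

theorem Un_red0 : red8 0 = 0 := by
  ext <;> simp [red8]

theorem Un_red (c : Fin 24 → Eis ℤ) (h : IsCol regK gapK c) :
    IsCol regK gapK fun r => red8 (c r) := by
  intro k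
  have e := congrArg red8 (h k)
  rw [Un_pow] at e ⊢
  rw [Un_add, Un_sub, Un_mul, Un_sub, Un_red0] at e
  have e2 : red8 (if epsB k then (⟨0, 1⟩ : Eis ℤ) else ⟨1, -1⟩) =
      if epsB k then (⟨0, 1⟩ : Eis (ZMod 8)) else ⟨1, -1⟩ := by
    split_ifs <;> ext <;> simp [red8]
  rw [e2] at e
  exact e

theorem col8_col (x y : Eis (ZMod 8)) :
    IsCol regK gapK (col8 x y) ∧ col8 x y 22 = 0 ∧ col8 x y 19 = 0 := by
  refine ⟨fun k => ?_, ?_, ?_⟩
  · have e2 := Un_red colA colA_col.1 k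
    have e3 := Un_red colB colB_col.1 k
    simp only [col8]
    linear_combination x * e2 + y * e3
  · simp [col8, colA_col.2.1, colB_col.2.1, Un_red0]
  · simp [col8, colA_col.2.2, colB_col.2.2, Un_red0]

theorem red8_comb (a b : Eis ℤ) (r : Fin 24) :
    red8 (a * colA r + b * colB r) = col8 (red8 a) (red8 b) r := by
  rw [Un_add, Un_mul, Un_mul, col8]

/-- The relation that the symmetry imposes. -/
theorem Un_rel (a b : Eis (ZMod 8)) (hJ : JComp gapK iotR (col8 a b)) :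
    b * (⟨1, -1⟩ : Eis (ZMod 8)) * star a = a * star b := by
  obtain ⟨μ, u, v, h⟩ := hJ
  set w : Eis (ZMod 8) := ⟨0, 1⟩ with hw
  have w1 : (⟨1, -1⟩ : Eis (ZMod 8)) = 1 - w := by decide
  have ww : w * w = w - 1 := by decide
  have sw : star w = 1 - w := by decide
  have p0 : ((om (ZMod 8) ^ gapK 22 : (Eis (ZMod 8))ˣ) : Eis (ZMod 8)) = 1 := by
    change ((om (ZMod 8) ^ (0 : ℤ) : (Eis (ZMod 8))ˣ) : Eis (ZMod 8)) = 1
    simp
  have p1 : ((om (ZMod 8) ^ gapK 19 : (Eis (ZMod 8))ˣ) : Eis (ZMod 8)) = w := by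
    change ((om (ZMod 8) ^ (1 : ℤ) : (Eis (ZMod 8))ˣ) : Eis (ZMod 8)) = w
    rw [zpow_one]; rfl
  have p2 : ((om (ZMod 8) ^ gapK 21 : (Eis (ZMod 8))ˣ) : Eis (ZMod 8)) = w * w := by
    change ((om (ZMod 8) ^ ((2 : ℕ) : ℤ) : (Eis (ZMod 8))ˣ) : Eis (ZMod 8)) = w * w
    rw [zpow_natCast, pow_two, Units.val_mul]; rfl
  have p3 : ((om (ZMod 8) ^ gapK 23 : (Eis (ZMod 8))ˣ) : Eis (ZMod 8)) = w * w * w := by
    change ((om (ZMod 8) ^ ((3 : ℕ) : ℤ) : (Eis (ZMod 8))ˣ) : Eis (ZMod 8)) = w * w * w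
    rw [zpow_natCast, pow_succ, pow_two, Units.val_mul, Units.val_mul]; rfl
  have c22 : col8 a b 22 = 0 := (col8_col a b).2.1
  have c19 : col8 a b 19 = 0 := (col8_col a b).2.2
  have c23 : col8 a b 23 = b := by
    have e1 : red8 (colA 23) = 0 := by decide
    have e2 : red8 (colB 23) = 1 := by decide
    simp [col8, e1, e2]
  have c21 : col8 a b 21 = a := by
    have e1 : red8 (colA 21) = 1 := by decide
    have e2 : red8 (colB 21) = 0 := by decide
    simp [col8, e1, e2]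
  have c8 : col8 a b 8 = b * (1 - w) := by
    have e1 : red8 (colA 8) = 0 := by decide
    have e2 : red8 (colB 8) = 1 - w := by decide
    simp [col8, e1, e2]
  have c10 : col8 a b 10 = a * w - b * w := by
    have e1 : red8 (colA 10) = w := by decide
    have e2 : red8 (colB 10) = -w := by decide
    rw [col8, e1, e2]; ring
  have h1 : star (col8 a b 23) = _ := h 22
  have h2 : star (col8 a b 8) = _ := h 19
  have h3 : star (col8 a b 10) = _ := h 21
  have h4 : star (col8 a b 22) = _ := h 23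
  rw [p0, c22, c23] at h1
  rw [p1, c19, c8, star_mul', star_sub, star_one, sw] at h2
  rw [p2, c21, c10, star_sub, star_mul', star_mul', sw] at h3
  rw [p3, c23, c22, star_zero] at h4
  rw [w1]
  have hv : v = star b := by
    linear_combination (-w) * h1 + w * h2 + (v - star b) * ww
  have hu : u = 0 := by linear_combination -h1 - hv
  rw [hv, hu] at h3 h4
  linear_combination b * h3 - a * h4 + (b * star b - a * star b * (w + 1)) * ww

theorem Un_real (t : Eis (ZMod 8)) (h : star t = t) : t = ⟨t.re, 0⟩ := by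
  have e := congrArg QuadraticAlgebra.re h
  rw [QuadraticAlgebra.re_star] at e
  ext
  · rfl
  · change t.im = 0
    linear_combination e

/-- The unit `2 - ω`. -/
def Un_g : (Eis (ZMod 8))ˣ where
  val := ⟨2, -1⟩
  inv := ⟨3, 3⟩
  val_inv := by decide
  inv_val := by decide

/-- The invariant lines. -/
theorem jcomp_lines (a b : Eis (ZMod 8)) (hu : IsUnit a ∨ IsUnit b)
    (hJ : JComp gapK iotR (col8 a b)) : ∃ (u : (Eis (ZMod 8))ˣ) (m n : ZMod 8),
    (m = 1 ∨ (n = 1 ∧ (m = 0 ∨ m = 2 ∨ m = 4 ∨ m = 6))) ∧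
      a = u * (⟨2 * m, -m⟩ : Eis (ZMod 8)) ∧ b = u * (⟨n, 0⟩ : Eis (ZMod 8)) := by
  have hr := Un_rel a b hJ
  have hg : (⟨1, -1⟩ : Eis (ZMod 8)) * star (Un_g : Eis (ZMod 8)) = Un_g := by decide
  have key : ∀ (u : (Eis (ZMod 8))ˣ) (s t : Eis (ZMod 8)), a = u * Un_g * s → b = u * t →
      t * star s = s * star t := by
    intro u s t ha hb
    rw [ha, hb, star_mul', star_mul', star_mul'] at hr
    have hU : IsUnit ((u : Eis (ZMod 8)) * star (u : Eis (ZMod 8)) * Un_g) :=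
      (u.isUnit.mul u.isUnit.star).mul Un_g.isUnit
    apply hU.mul_left_cancel
    linear_combination hr - (u : Eis (ZMod 8)) * t * star (u : Eis (ZMod 8)) * star s * hg
  by_cases ha : IsUnit a
  · obtain ⟨a', rfl⟩ := ha
    have e1 : (a' : Eis (ZMod 8)) = (a' * Un_g⁻¹ : (Eis (ZMod 8))ˣ) * Un_g * 1 := by simp
    have e2 : b = (a' * Un_g⁻¹ : (Eis (ZMod 8))ˣ) * (((a' * Un_g⁻¹)⁻¹ : (Eis (ZMod 8))ˣ) * b) := by
      rw [Units.mul_inv_cancel_left]
    have e := key _ _ _ e1 e2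
    rw [star_one, mul_one, one_mul] at e
    refine ⟨a' * Un_g⁻¹, 1, _, Or.inl rfl, ?_, e2.trans (congrArg _ (Un_real _ e.symm))⟩
    have e3 : (⟨2 * 1, -1⟩ : Eis (ZMod 8)) = Un_g := by decide
    rw [e3]
    simp
  · obtain ⟨b', rfl⟩ := hu.resolve_left ha
    have e1 : a = b' * Un_g * (((b' * Un_g)⁻¹ : (Eis (ZMod 8))ˣ) * a) := by
      rw [← Units.val_mul, Units.mul_inv_cancel_left]
    generalize (((b' * Un_g)⁻¹ : (Eis (ZMod 8))ˣ) : Eis (ZMod 8)) * a = t at e1
    have e := key b' t 1 e1 (mul_one _).symm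
    rw [star_one, mul_one, one_mul] at e
    have e4 := Un_real t e
    generalize t.re = m at e4
    subst e4
    have e5 : (Un_g : Eis (ZMod 8)) * ⟨m, 0⟩ = ⟨2 * m, -m⟩ := by
      ext <;> simp [Un_g]
    refine ⟨b', m, 1, Or.inr ⟨rfl, ?_⟩, by rw [e1, mul_assoc, e5], (mul_one _).symm⟩
    by_contra hm
    have hmm : m * m = 1 := by
      revert hm
      generalize m = k
      revert k
      decide
    have ht : IsUnit (⟨m, 0⟩ : Eis (ZMod 8)) := by
      refine IsUnit.of_mul_eq_one (⟨m, 0⟩ : Eis (ZMod 8)) ?_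
      ext
      · simp [hmm, QuadraticAlgebra.re_one]
      · simp [QuadraticAlgebra.im_one]
    exact ha (e1 ▸ (b'.isUnit.mul Un_g.isUnit).mul ht)

/-- Unit multiples of a colouring. -/
theorem twOK_unit (u : (Eis (ZMod 8))ˣ) (x y : Eis (ZMod 8))
    (h : ∃ χ, TwOK regK gapK χ (col8 x y)) : ∃ χ, TwOK regK gapK χ (col8 (u * x) (u * y)) := by
  obtain ⟨χ, h⟩ := h
  refine ⟨AddChar.mulShift χ ((u⁻¹ : (Eis (ZMod 8))ˣ) : Eis (ZMod 8)), fun j => ?_⟩
  have e : (fun (r : Fin 24) (n : ℤ) => AddChar.mulShift χ ((u⁻¹ : (Eis (ZMod 8))ˣ) : Eis (ZMod 8))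
      ((om (ZMod 8) ^ n : (Eis (ZMod 8))ˣ) * col8 (u * x) (u * y) r)) =
      fun r n => χ ((om (ZMod 8) ^ n : (Eis (ZMod 8))ˣ) * col8 x y r) := by
    funext r n
    rw [AddChar.mulShift_apply]
    congr 1
    have := u.inv_mul
    simp only [col8]
    linear_combination (((om (ZMod 8) ^ n : (Eis (ZMod 8))ˣ) : Eis (ZMod 8)) *
      (x * red8 (colA r) + y * red8 (colB r))) * this
  rw [e]
  exact h j

end Pool.Agent.MP_bc14e1_gt
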