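import Pool.Agent.MP_bc14e1_gt.Kn.Abs
import Pool.Agent.MP_bc14e1_gt.Kn.TabM
import Pool.Agent.MP_bc14e1_gt.Kn.TabF
import Pool.Agent.MP_bc14e1_gt.Kn.Un
import Pool.Agent.MP_bc14e1_gt.K.CA

/-! From a certificate to the twisted homology. -/

open Polynomial

namespace Pool.Agent.MP_bc14e1_gt

theorem exists_chi {a : ℂ} (ha : a ^ 4 = -1) :
    ∃ χ : AddChar (Eis (ZMod 8)) ℂ, ∀ (z : Eis (ZMod 8)) (n : ℕ), (n : ZMod 8) = z.re →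
      χ z = a ^ n := by
  have h8 : a ^ 8 = 1 := by
    rw [show 8 = 4 * 2 from rfl, pow_mul, ha]
    norm_num
  refine ⟨⟨fun z => a ^ z.re.val, by simp, fun z w => ?_⟩, fun z n hn => ?_⟩
  · rw [QuadraticAlgebra.re_add, ZMod.val_add, ← pow_eq_pow_mod _ h8, pow_add]
  · change a ^ z.re.val = a ^ n
    rw [← hn, ZMod.val_natCast, ← pow_eq_pow_mod _ h8]

theorem Tw_div (χ : AddChar (Eis (ZMod 8)) ℂ) (p q : Eis (ZMod 8)) : χ p / χ q = χ (p - q) :=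
  (χ.map_sub_eq_div p q).symm

theorem Tw_om (k : Fin 22) :
    ((om (ZMod 8) ^ (gapK (regK k 1) - gapK (regK k 2)) : (Eis (ZMod 8))ˣ) : Eis (ZMod 8)) =
      if epsB k then (⟨0, 1⟩ : Eis (ZMod 8)) else ⟨1, -1⟩ := by
  rw [gapK_eps]
  split_ifs
  · rw [zpow_one]
    rfl
  · rw [zpow_neg_one]
    rfl

theorem twOK_of_cert (c : NCert) (Ex : List (List ℕ)) (A : List (List (List Z8))) (T : Tab)
    (h : tabOK Ex A T = true) (h₁ : c.chk₁ = true) (h₂ : c.chk₂ = true)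
    (h₃ : c.chk₃ (en₂ A) = true) (h₄ : c.chk₄ (en₂ A) = true) (x y : Eis (ZMod 8))
    (hE : exOK Ex x y) : ∃ χ, TwOK regK gapK χ (col8 x y) := by
  obtain ⟨a, s₀, ha, hn, hne, ⟨u, hu, hAu⟩, ⟨B, D, hB, hD⟩, hr⟩ :=
    good_of_cert c (en₂ A) h₁ h₂ h₃ h₄
  obtain ⟨χ, hχ⟩ := exists_chi ha
  obtain ⟨c1, c2, c3⟩ := col8_col x y
  have hw := wok_of_col χ c1 (R0 := 22) (R1 := 19) rfl rfl gapK_quad c2 c3
  have hWE : WE (fun r n => χ ((om (ZMod 8) ^ n : (Eis (ZMod 8))ˣ) * col8 x y r)) a Ex := by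
    intro k j
    rw [Tw_div]
    refine hχ _ _ ((hE k j).trans (congrArg QuadraticAlgebra.re ?_))
    rw [zpow_add, Units.val_mul, Tw_om, zpow_natCast, Units.val_pow_eq_pow_val, mul_sub, mul_assoc]
    rfl
  have h0 : s₀ ≠ 0 := fun e => by simp [e] at hn
  have h1 : s₀ ≠ 1 := by simpa using hne 0
  obtain ⟨φ, p1, p2, p3⟩ := tab_fun h ha hw hWE h0 hu hAu
  refine ⟨χ, fun j => ?_⟩
  obtain ⟨v, v1, v2, v3, v4, v5⟩ := abs_len1 (shT (Fin 24) 6) _ _ _ hw.sh_ker hw.sh_range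
    (fun v hv => (hw.sh_WT v).2 hv) le_sup_left hw.ker_inf hw.sh_sub h1 h0
    (N := 2 ^ j) (by positivity) (hD j) (tab_kill h ha hw hWE hB) (genK 11)
    (tab_rank h ha hw hWE h0 hr) φ p1 p2 p3
  have e : shT (Fin 24) 6 ^ 2 ^ j - s₀ ^ 2 ^ j • (1 : Module.End ℂ _) =
      piT (Fin 24) (6 * 2 ^ j) (s₀ ^ 2 ^ j) := by
    rw [shT_pow, piT]
    push_cast
    rfl
  rw [e] at v2 v4 v5
  refine ⟨⟨s₀ ^ 2 ^ j, mem_sphere_zero_iff_norm.2 (by rw [norm_pow, hn, one_pow])⟩,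
    fun e1 => hne j (congrArg Subtype.val e1), v, v1, v2, v3, v4, fun z hz => ?_⟩
  obtain ⟨μ, z', q1, q2⟩ := v5 z hz
  exact ⟨μ, z', q1, q2⟩

end Pool.Agent.MP_bc14e1_gt
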